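import Pool.Agent.Helper16.Pin.RankD

namespace Pool.Agent.Helper36.Pin

open Finset Module

variable {V : Type} [Fintype V] [DecidableEq V]

theorem card_inside_le (F : Finset (Sym2 V)) (X : Finset V) (hF : ∀ e ∈ F, ¬ e.IsDiag)
    (hX : F ⊆ X.sym2) : F.card ≤ X.card.choose 2 := by
  rw [← Sym2.card_image_offDiag X]
  apply Finset.card_le_card
  intro e he
  have h1 := hF e he
  have h2 := hX he
  induction e using Sym2.ind with
  | _ u v =>
    rw [mk_mem_sym2] at h2
    rw [Finset.mem_image]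
    exact ⟨(u, v), Finset.mem_offDiag.2 ⟨h2.1, h2.2, fun h => h1 (by simpa using h)⟩, rfl⟩

/-- edges outside of a component -/
theorem Comps.rk_sdiff_le {F : Finset (Sym2 V)} {𝒳 : Finset (Finset V)} (h : Comps F 𝒳)
    (hF : ∀ e ∈ F, ¬ e.IsDiag) {Y : Finset V} (hY : Y ∈ 𝒳) :
    rk (F \ Y.sym2) + 2 * Y.card ≤ rk F + 3 := by
  have h1 : rk (F \ Y.sym2) ≤ ∑ X ∈ 𝒳.erase Y, (2 * X.card - 3) := by
    apply rk_le_cover
    · intro X hX
      exact h.two_le X (Finset.mem_of_mem_erase hX)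
    · intro e he hd
      rw [Finset.mem_sdiff] at he
      obtain ⟨X, hX, heX⟩ := h.cover e he.1 hd
      refine ⟨X, Finset.mem_erase.2 ⟨?_, hX⟩, heX⟩
      rintro rfl
      exact he.2 heX
  have h2 : ∑ X ∈ 𝒳.erase Y, (2 * X.card - 3) + (2 * Y.card - 3) = rk F := by
    rw [← h.sum, Finset.sum_erase_add _ _ hY]
  have h3 := h.two_le Y hY
  omega

theorem Comps.le_rk {F : Finset (Sym2 V)} {𝒳 : Finset (Finset V)} (h : Comps F 𝒳)
    {Y : Finset V} (hY : Y ∈ 𝒳) : 2 * Y.card ≤ rk F + 3 := by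
  have h1 : (2 * Y.card - 3) ≤ rk F := by
    rw [← h.sum]
    exact Finset.single_le_sum (f := fun X : Finset V => 2 * X.card - 3) (fun _ _ => Nat.zero_le _) hY
  omega

theorem tight_false (G : SimpleGraph V) (X S : Finset V) (hS : S.Nonempty)
    (hX : S.card + 2 ≤ X.card)
    (hn : ∀ S' ⊆ S, S'.Nonempty → S' ∪ nbr G S' = X ∨ 3 ≤ (nbr G S').card)
    (ht : rk (inc G S) = 2 * S.card)
    (hc : ∀ e ∈ inc G S, rk ((inc G S).erase e) = 2 * S.card) : False := by
  classical
  obtain ⟨𝒳, h𝒳⟩ := exists_comps (inc G S)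
  have hF : ∀ e ∈ inc G S, ¬ e.IsDiag := fun e he => not_isDiag_of_mem_inc he
  -- all components have at least 4 elements
  have h4 : ∀ Y ∈ 𝒳, 4 ≤ Y.card := by
    intro Y hY
    by_contra hlt
    have h2 := h𝒳.two_le Y hY
    have hr := h𝒳.rigid Y hY
    have hne : (inc G S ∩ Y.sym2).Nonempty := by
      rw [Finset.nonempty_iff_ne_empty]
      intro h0
      rw [h0, rk_empty] at hr
      omega
    obtain ⟨e, he⟩ := hne
    have heF := (Finset.mem_inter.1 he).1
    have h5 := h𝒳.rk_sdiff_le hF hY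
    have h6 : rk ((inc G S ∩ Y.sym2).erase e) + 1 ≤ Y.card.choose 2 := by
      have h7 : (inc G S ∩ Y.sym2).card ≤ Y.card.choose 2 :=
        card_inside_le _ _ (fun e he => hF e (Finset.mem_inter.1 he).1) Finset.inter_subset_right
      have h8 := rk_le_card ((inc G S ∩ Y.sym2).erase e)
      have h9 : ((inc G S ∩ Y.sym2).erase e).card + 1 = (inc G S ∩ Y.sym2).card :=
        Finset.card_erase_add_one he
      omega
    have h7 : rk ((inc G S).erase e) ≤ rk (inc G S \ Y.sym2) + rk ((inc G S ∩ Y.sym2).erase e) := by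
      refine le_trans (rk_mono ?_) (rk_union_le _ _)
      intro e' he'
      rw [Finset.mem_erase] at he'
      rw [Finset.mem_union, Finset.mem_sdiff, Finset.mem_erase, Finset.mem_inter]
      by_cases h : e' ∈ Y.sym2
      · exact Or.inr ⟨he'.1, he'.2, h⟩
      · exact Or.inl ⟨he'.2, h⟩
    have h8 := hc e heF
    have h9 : Y.card.choose 2 = 2 * Y.card - 3 := by
      have : Y.card = 2 ∨ Y.card = 3 := by omega
      rcases this with h | h <;> rw [h] <;> decide
    omega
  -- degrees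
  set d : V → ℕ := fun v => (𝒳.filter (fun Y => v ∈ Y)).card with hd
  have hd1 : ∀ v ∈ S, 1 ≤ d v := by
    intro v hv
    have h1 : (nbr G {v}).Nonempty := by
      rcases hn {v} (by simpa using hv) (Finset.singleton_nonempty v) with h | h
      · rw [Finset.nonempty_iff_ne_empty]
        intro h0
        rw [h0, Finset.union_empty] at h
        rw [← h] at hX
        simp at hX
      · exact Finset.card_pos.1 (by omega)
    obtain ⟨w, hw⟩ := h1
    rw [mem_nbr] at hw
    obtain ⟨_, u, hu, hadj⟩ := hw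
    rw [Finset.mem_singleton] at hu
    subst hu
    obtain ⟨Y, hY, hYe⟩ := h𝒳.cover s(u, w) (mem_inc_mk.2 ⟨hadj, Or.inl hv⟩)
      (by simpa using hadj.ne)
    exact Finset.card_pos.2 ⟨Y, Finset.mem_filter.2 ⟨hY, (mk_mem_sym2.1 hYe).1⟩⟩
  have huniq : ∀ v, d v < 2 → ∀ Y ∈ 𝒳, ∀ Y' ∈ 𝒳, v ∈ Y → v ∈ Y' → Y = Y' := by
    intro v hv Y hY Y' hY' h h'
    by_contra hne
    have : 1 < d v := Finset.one_lt_card.2 ⟨Y, Finset.mem_filter.2 ⟨hY, h⟩, Y',
      Finset.mem_filter.2 ⟨hY', h'⟩, hne⟩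
    omega
  -- local inequality
  have hloc : ∀ Y ∈ 𝒳, 3 ≤ ((Y ∩ S).filter (fun v => 2 ≤ d v)).card + (Y \ S).card := by
    intro Y hY
    set I := (Y ∩ S).filter (fun v => ¬ 2 ≤ d v) with hI
    have hcard : Y.card = I.card + ((Y ∩ S).filter (fun v => 2 ≤ d v)).card + (Y \ S).card := by
      have h1 : (Y ∩ S).card = ((Y ∩ S).filter (fun v => 2 ≤ d v)).card + I.card :=
        (Finset.card_filter_add_card_filter_not (s := Y ∩ S) (fun v => 2 ≤ d v)).symm
      have h2 : Y.card = (Y ∩ S).card + (Y \ S).card := by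
        rw [← Finset.card_inter_add_card_sdiff Y S]
      omega
    by_cases hIe : I = ∅
    · rw [hIe, Finset.card_empty] at hcard
      have := h4 Y hY
      omega
    · have hIne : I.Nonempty := Finset.nonempty_iff_ne_empty.2 hIe
      have hIS : I ⊆ S := fun v hv => (Finset.mem_inter.1 (Finset.mem_filter.1 hv).1).2
      have hIY : I ⊆ Y := fun v hv => (Finset.mem_inter.1 (Finset.mem_filter.1 hv).1).1
      have hnb : nbr G I ⊆ Y \ I := by
        intro w hw
        rw [mem_nbr] at hw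
        obtain ⟨hwI, u, hu, hadj⟩ := hw
        rw [Finset.mem_sdiff]
        refine ⟨?_, hwI⟩
        obtain ⟨Y', hY', hYe⟩ := h𝒳.cover s(u, w) (mem_inc_mk.2 ⟨hadj, Or.inl (hIS hu)⟩)
          (by simpa using hadj.ne)
        rw [mk_mem_sym2] at hYe
        have hdu : d u < 2 := by
          have := (Finset.mem_filter.1 hu).2
          omega
        have := huniq u hdu Y hY Y' hY' (hIY hu) hYe.1
        rw [this]
        exact hYe.2
      have hc1 : (nbr G I).card ≤ (Y \ I).card := Finset.card_le_card hnb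
      have hc2 : (Y \ I).card + I.card = Y.card := Finset.card_sdiff_add_card_eq_card hIY
      rcases hn I hIS hIne with h | h
      · exfalso
        have h1 : X ⊆ Y := by
          rw [← h]
          exact Finset.union_subset hIY (hnb.trans Finset.sdiff_subset)
        have h2 := Finset.card_le_card h1
        have h3 := h𝒳.le_rk hY
        omega
      · omega
  -- double counting
  have hs1 : ∑ Y ∈ 𝒳, (Y ∩ S).card = ∑ v ∈ S, d v := by
    simp only [hd, Finset.card_eq_sum_ones, Finset.sum_filter]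
    rw [Finset.sum_comm]
    apply Finset.sum_congr rfl
    intro Y _
    rw [← Finset.sum_filter]
    congr 1
    ext v
    simp [and_comm]
  have hs2 : ∑ Y ∈ 𝒳, ((Y ∩ S).filter (fun v => 2 ≤ d v)).card =
      ∑ v ∈ S.filter (fun v => 2 ≤ d v), d v := by
    have : ∀ v, d v = ∑ Y ∈ 𝒳, if v ∈ Y then 1 else 0 := by
      intro v
      simp [hd]
    rw [Finset.sum_congr rfl (fun v _ => this v), Finset.sum_comm]
    apply Finset.sum_congr rfl
    intro Y _
    rw [← Finset.sum_filter, ← Finset.card_eq_sum_ones]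
    congr 1
    ext v
    simp only [Finset.mem_filter, Finset.mem_inter]
    tauto
  have hs3 : ∑ v ∈ S.filter (fun v => 2 ≤ d v), d v + 2 * S.card ≤ 2 * ∑ v ∈ S, d v := by
    have : ∑ v ∈ S.filter (fun v => 2 ≤ d v), d v + 2 * S.card =
        ∑ v ∈ S, ((if 2 ≤ d v then d v else 0) + 2) := by
      rw [Finset.sum_add_distrib, Finset.sum_filter]
      simp [mul_comm]
    rw [this, Finset.mul_sum]
    apply Finset.sum_le_sum
    intro v hv
    have := hd1 v hv
    split_ifs with h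
    · omega
    · omega
  have hs4 : ∑ Y ∈ 𝒳, 3 ≤ ∑ Y ∈ 𝒳, (((Y ∩ S).filter (fun v => 2 ≤ d v)).card + (Y \ S).card) :=
    Finset.sum_le_sum hloc
  have hs5 : ∑ Y ∈ 𝒳, (2 * Y.card - 3) + ∑ Y ∈ 𝒳, 3 =
      2 * ∑ Y ∈ 𝒳, (Y ∩ S).card + 2 * ∑ Y ∈ 𝒳, (Y \ S).card := by
    rw [← Finset.sum_add_distrib, Finset.mul_sum, Finset.mul_sum, ← Finset.sum_add_distrib]
    apply Finset.sum_congr rfl
    intro Y hY
    have h1 := h4 Y hY
    have h2 : Y.card = (Y ∩ S).card + (Y \ S).card := by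
      rw [← Finset.card_inter_add_card_sdiff Y S]
    omega
  rw [h𝒳.sum, ht] at hs5
  rw [Finset.sum_add_distrib, hs2] at hs4
  have hs6 : 1 ≤ ∑ Y ∈ 𝒳, (Y \ S).card := by
    have h1 : (nbr G S).Nonempty := by
      rcases hn S (Finset.Subset.refl _) hS with h | h
      · rw [Finset.nonempty_iff_ne_empty]
        intro h0
        rw [h0, Finset.union_empty] at h
        rw [← h] at hX
        omega
      · exact Finset.card_pos.1 (by omega)
    obtain ⟨w, hw⟩ := h1
    rw [mem_nbr] at hw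
    obtain ⟨hwS, u, hu, hadj⟩ := hw
    obtain ⟨Y, hY, hYe⟩ := h𝒳.cover s(u, w) (mem_inc_mk.2 ⟨hadj, Or.inl hu⟩)
      (by simpa using hadj.ne)
    rw [mk_mem_sym2] at hYe
    calc 1 ≤ (Y \ S).card := Finset.card_pos.2 ⟨w, Finset.mem_sdiff.2 ⟨hYe.2, hwS⟩⟩
      _ ≤ _ := Finset.single_le_sum (f := fun Y : Finset V => (Y \ S).card)
        (fun _ _ => Nat.zero_le _) hY
  rw [hs1] at hs5
  omega

end Pool.Agent.Helper36.Pin
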