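import Pool.Agent.Helper36.Pin.I

namespace Pool.Agent.Helper36.Pin

open Finset Module

variable {V : Type} [Fintype V] [DecidableEq V]

theorem inc_congr {G H : SimpleGraph V} {S : Finset V} (h : ∀ u ∈ S, ∀ v, H.Adj u v ↔ G.Adj u v) :
    inc H S = inc G S := by
  ext e
  induction e using Sym2.ind with
  | _ u v =>
    rw [mem_inc_mk, mem_inc_mk]
    constructor
    · rintro ⟨hadj, hu | hv⟩
      · exact ⟨(h u hu v).1 hadj, Or.inl hu⟩
      · exact ⟨((h v hv u).1 hadj.symm).symm, Or.inr hv⟩
    · rintro ⟨hadj, hu | hv⟩
      · exact ⟨(h u hu v).2 hadj, Or.inl hu⟩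
      · exact ⟨((h v hv u).2 hadj.symm).symm, Or.inr hv⟩

theorem nbr_congr {G H : SimpleGraph V} {S : Finset V} (h : ∀ u ∈ S, ∀ v, H.Adj u v ↔ G.Adj u v) :
    nbr H S = nbr G S := by
  ext v
  rw [mem_nbr, mem_nbr]
  constructor
  · rintro ⟨hv, u, hu, hadj⟩
    exact ⟨hv, u, hu, (h u hu v).1 hadj⟩
  · rintro ⟨hv, u, hu, hadj⟩
    exact ⟨hv, u, hu, (h u hu v).2 hadj⟩

theorem pins_iff (G : SimpleGraph V) (P : Finset V) (hP : 4 ≤ P.card) :
    Pins G P ↔ Feas G Pᶜ := by
  have hcomp : ∀ S ⊆ Pᶜ, ∀ u ∈ S, ∀ v, (G ⊔ completeOn P).Adj u v ↔ G.Adj u v := by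
    intro S hS u hu v
    rw [SimpleGraph.sup_adj]
    constructor
    · rintro (h | h)
      · exact h
      · exact absurd h.2.1 (Finset.mem_compl.1 (hS hu))
    · exact Or.inl
  have hX : 4 ≤ (Finset.univ : Finset V).card := hP.trans (Finset.card_le_card (subset_univ P))
  have key := gr_iff (G ⊔ completeOn P) Finset.univ P hX (subset_univ _) (Or.inr hP)
    (by
      intro u hu v hv huv
      rw [SimpleGraph.sup_adj]
      exact Or.inr ⟨huv, hu, hv⟩)
    (fun u _ v _ => mem_univ v)
  have hfe : Feas G Pᶜ ↔ GR (G ⊔ completeOn P) Finset.univ := by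
    rw [key]
    constructor
    · intro h S hS hne
      rw [← Finset.compl_eq_univ_sdiff] at hS
      rw [inc_congr (hcomp S hS), nbr_congr (hcomp S hS)]
      exact ⟨(h S hS hne).1, Or.inr (h S hS hne).2⟩
    · intro h S hS hne
      have h1 := h S (by rwa [← Finset.compl_eq_univ_sdiff]) hne
      rw [inc_congr (hcomp S hS), nbr_congr (hcomp S hS)] at h1
      refine ⟨h1.1, ?_⟩
      rcases h1.2 with h2 | h2
      · have hsub : P ⊆ nbr G S := by
          intro x hx
          have hxS : x ∉ S := fun h' => (Finset.mem_compl.1 (hS h')) hx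
          have : x ∈ S ∪ nbr G S := by rw [h2]; exact mem_univ x
          rcases Finset.mem_union.1 this with h' | h'
          · exact absurd h' hxS
          · exact h'
        have := Finset.card_le_card hsub
        omega
      · exact h2
  rw [hfe]
  constructor
  · rintro (rfl | h)
    · rw [← hfe]
      intro S hS hne
      simp only [Finset.compl_univ, Finset.subset_empty] at hS
      exact absurd hS hne.ne_empty
    · exact h.2
  · intro h
    exact Or.inr ⟨by omega, h⟩

theorem card_inc_singleton_le (G : SimpleGraph V) (v : V) :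
    (inc G {v}).card ≤ (nbr G {v}).card := by
  have : inc G {v} ⊆ (nbr G {v}).image (fun w => s(v, w)) := by
    intro e
    induction e using Sym2.ind with
    | _ x y =>
      rw [mem_inc_mk]
      rintro ⟨hadj, hx | hy⟩
      · rw [Finset.mem_singleton] at hx
        subst hx
        refine Finset.mem_image.2 ⟨y, mem_nbr.2 ⟨?_, x, by simp, hadj⟩, rfl⟩
        simpa using hadj.ne'
      · rw [Finset.mem_singleton] at hy
        subst hy
        refine Finset.mem_image.2 ⟨x, mem_nbr.2 ⟨?_, y, by simp, hadj.symm⟩, Sym2.eq_swap⟩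
        simpa using hadj.ne
  exact (Finset.card_le_card this).trans Finset.card_image_le

theorem isEnd_iff (G : SimpleGraph V) (F : Finset V) (a b : V) :
    IsEnd G F a b ↔ EndData G F a b := by
  constructor
  · intro h
    have haF : a ∉ F := (mem_nbr.1 (show a ∈ nbr G F by rw [h.nbr_eq]; simp)).1
    have hbF : b ∉ F := (mem_nbr.1 (show b ∈ nbr G F by rw [h.nbr_eq]; simp)).1
    have hne : F.Nonempty := by
      obtain ⟨_, u, hu, _⟩ := mem_nbr.1 (show a ∈ nbr G F by rw [h.nbr_eq]; simp)
      exact ⟨u, hu⟩
    have hcomp : ∀ S ⊆ F, ∀ u ∈ S, ∀ v, (G ⊔ SimpleGraph.edge a b).Adj u v ↔ G.Adj u v := by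
      intro S hS u hu v
      rw [SimpleGraph.sup_adj, SimpleGraph.edge_adj]
      have hua : u ≠ a := fun h' => haF (h' ▸ hS hu)
      have hub : u ≠ b := fun h' => hbF (h' ▸ hS hu)
      tauto
    have hXP : (F ∪ {a, b}) \ {a, b} = F := by
      ext x
      simp only [Finset.mem_sdiff, Finset.mem_union, Finset.mem_insert, Finset.mem_singleton]
      constructor
      · tauto
      · intro hx
        refine ⟨Or.inl hx, ?_⟩
        rintro (rfl | rfl)
        · exact haF hx
        · exact hbF hx
    have key := (gr_iff (G ⊔ SimpleGraph.edge a b) (F ∪ {a, b}) {a, b} h.gr.1.1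
      Finset.subset_union_right (Or.inl (Finset.card_pair h.ne))
      (by
        intro u hu v hv huv
        rw [SimpleGraph.sup_adj, SimpleGraph.edge_adj]
        simp only [Finset.mem_insert, Finset.mem_singleton] at hu hv
        rcases hu with rfl | rfl <;> rcases hv with rfl | rfl <;> tauto)
      (by
        intro u hu v hadj
        rw [hXP] at hu
        rw [hcomp F subset_rfl u hu v] at hadj
        by_cases hv : v ∈ F
        · exact Finset.mem_union_left _ hv
        · rw [← h.nbr_eq]
          exact Finset.mem_union_right _ (mem_nbr.2 ⟨hv, u, hu, hadj⟩))).1 h.gr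
    rw [hXP] at key
    refine ⟨h.ne, h.nbr_eq, hne, ?_, ?_⟩
    · intro S hS hSne
      have := (key S hS hSne).1
      rwa [inc_congr (hcomp S hS)] at this
    · intro S hS hSne
      have h1 := (key S hS.subset hSne).2
      rw [nbr_congr (hcomp S hS.subset)] at h1
      rcases h1 with h1 | h1
      · obtain ⟨x, hxF, hxS⟩ := Finset.exists_of_ssubset hS
        have hsub : {a, b, x} ⊆ nbr G S := by
          intro y hy
          simp only [Finset.mem_insert, Finset.mem_singleton] at hy
          have hyX : y ∈ S ∪ nbr G S := by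
            rw [h1]
            simp only [Finset.mem_union, Finset.mem_insert, Finset.mem_singleton]
            rcases hy with rfl | rfl | rfl
            · tauto
            · tauto
            · exact Or.inl hxF
          have hyS : y ∉ S := by
            rcases hy with rfl | rfl | rfl
            · exact fun h' => haF (hS.subset h')
            · exact fun h' => hbF (hS.subset h')
            · exact hxS
          rcases Finset.mem_union.1 hyX with h' | h'
          · exact absurd h' hyS
          · exact h'
        have hc3 : ({a, b, x} : Finset V).card = 3 := by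
          rw [Finset.card_eq_three]
          refine ⟨a, b, x, h.ne, ?_, ?_, rfl⟩
          · rintro rfl; exact haF hxF
          · rintro rfl; exact hbF hxF
        have := Finset.card_le_card hsub
        omega
      · exact h1
  · intro h
    have haF : a ∉ F := (mem_nbr.1 (show a ∈ nbr G F by rw [h.nbr_eq]; simp)).1
    have hbF : b ∉ F := (mem_nbr.1 (show b ∈ nbr G F by rw [h.nbr_eq]; simp)).1
    have hcomp : ∀ S ⊆ F, ∀ u ∈ S, ∀ v, (G ⊔ SimpleGraph.edge a b).Adj u v ↔ G.Adj u v := by
      intro S hS u hu v
      rw [SimpleGraph.sup_adj, SimpleGraph.edge_adj]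
      have hua : u ≠ a := fun h' => haF (h' ▸ hS hu)
      have hub : u ≠ b := fun h' => hbF (h' ▸ hS hu)
      tauto
    have hXP : (F ∪ {a, b}) \ {a, b} = F := by
      ext x
      simp only [Finset.mem_sdiff, Finset.mem_union, Finset.mem_insert, Finset.mem_singleton]
      constructor
      · tauto
      · intro hx
        refine ⟨Or.inl hx, ?_⟩
        rintro (rfl | rfl)
        · exact haF hx
        · exact hbF hx
    have hclF : ∀ u ∈ F, ∀ v, G.Adj u v → v ∈ F ∪ {a, b} := by
      intro u hu v hadj
      by_cases hv : v ∈ F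
      · exact Finset.mem_union_left _ hv
      · rw [← h.nbr_eq]
        exact Finset.mem_union_right _ (mem_nbr.2 ⟨hv, u, hu, hadj⟩)
    have hX : 4 ≤ (F ∪ {a, b}).card := by
      obtain ⟨v, hv⟩ := h.nonempty
      have h1 := h.feasA {v} (by simpa using hv) (by simp)
      have h2 := rk_le_card (inc G {v})
      have h3 := card_inc_singleton_le G v
      simp only [Finset.card_singleton] at h1
      have hsub : insert v (nbr G {v}) ⊆ F ∪ {a, b} := by
        intro w hw
        rcases Finset.mem_insert.1 hw with rfl | hw
        · exact Finset.mem_union_left _ hv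
        · obtain ⟨_, u, hu, hadj⟩ := mem_nbr.1 hw
          rw [Finset.mem_singleton] at hu
          subst hu
          exact hclF u hv w hadj
      have h4 := Finset.card_le_card hsub
      rw [Finset.card_insert_of_notMem (by simp [mem_nbr])] at h4
      omega
    refine ⟨h.ne, h.nbr_eq, ?_⟩
    rw [gr_iff (G ⊔ SimpleGraph.edge a b) (F ∪ {a, b}) {a, b} hX
      Finset.subset_union_right (Or.inl (Finset.card_pair h.ne))
      (by
        intro u hu v hv huv
        rw [SimpleGraph.sup_adj, SimpleGraph.edge_adj]
        simp only [Finset.mem_insert, Finset.mem_singleton] at hu hv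
        rcases hu with rfl | rfl <;> rcases hv with rfl | rfl <;> tauto)
      (by
        intro u hu v hadj
        rw [hXP] at hu
        rw [hcomp F subset_rfl u hu v] at hadj
        exact hclF u hu v hadj)]
    rw [hXP]
    intro S hS hSne
    rw [inc_congr (hcomp S hS), nbr_congr (hcomp S hS)]
    refine ⟨h.feasA S hS hSne, ?_⟩
    by_cases hSF : S = F
    · left
      rw [hSF, h.nbr_eq]
    · right
      exact h.small S (Finset.ssubset_iff_subset_ne.2 ⟨hS, hSF⟩) hSne

end Pool.Agent.Helper36.Pin
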