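import Pool.Agent.Helper36.Pin.Defs3
import Pool.Agent.Helper37.Pin.ModB
import Pool.Agent.Helper44.Pin.Count

/-!
# The parity number as the rank of a matrix
-/

namespace Pool.Agent.Helper36.Pin

open Finset Module

section

variable {ι m : Type}

/-- The skew-symmetric matrix `∑ x_i (a_{i,0} a_{i,1}ᵀ - a_{i,1} a_{i,0}ᵀ)` of a finite family of
lines. -/
def parityMatrix {R : Type} [CommRing R] [Algebra ℚ R] (L : Finset ι) (a : ι → Fin 2 → m → ℚ)
    (x : ι → R) : Matrix m m R := fun u w =>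
  ∑ i ∈ L, algebraMap ℚ R (a i 0 u * a i 1 w - a i 1 u * a i 0 w) * x i

theorem le_parityNumber {L Z : Finset ι} {a : ι → Fin 2 → m → ℚ} (hZ : Z ⊆ L)
    (h : LinearIndependent ℚ (fun i : Z × Fin 2 => a i.1 i.2)) : Z.card ≤ parityNumber L a := by
  classical
  unfold parityNumber
  exact Finset.le_sup (f := Finset.card) (Finset.mem_filter.2 ⟨Finset.mem_powerset.2 hZ, h⟩)

theorem exists_parityNumber (L : Finset ι) (a : ι → Fin 2 → m → ℚ) :
    ∃ Z ⊆ L, LinearIndependent ℚ (fun i : Z × Fin 2 => a i.1 i.2) ∧ Z.card = parityNumber L a := by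
  classical
  have hne : (L.powerset.filter (fun Z : Finset ι =>
      LinearIndependent ℚ (fun i : Z × Fin 2 => a i.1 i.2))).Nonempty := by
    refine ⟨∅, Finset.mem_filter.2 ⟨Finset.mem_powerset.2 (Finset.empty_subset _), ?_⟩⟩
    haveI : IsEmpty ((∅ : Finset ι) × Fin 2) := by infer_instance
    exact linearIndependent_empty_type
  obtain ⟨Z, hZ, hs⟩ := Finset.exists_mem_eq_sup _ hne Finset.card
  rw [Finset.mem_filter, Finset.mem_powerset] at hZ
  exact ⟨Z, hZ.1, hZ.2, hs.symm⟩

variable [Fintype m] [DecidableEq m] [DecidableEq ι]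

theorem parityMatrix_rat (L : Finset ι) (a : ι → Fin 2 → m → ℚ) (x : ι → ℚ) :
    parityMatrix L a x = ∑ i ∈ L, (Matrix.vecMulVec (x i • a i 0) (a i 1) -
      Matrix.vecMulVec (a i 1) (x i • a i 0)) := by
  ext u w
  rw [Matrix.sum_apply]
  unfold parityMatrix
  refine Finset.sum_congr rfl fun i _ => ?_
  rw [Matrix.sub_apply, Matrix.vecMulVec_apply, Matrix.vecMulVec_apply]
  simp only [Pi.smul_apply, smul_eq_mul, Algebra.algebraMap_self, RingHom.id_apply]
  ring

theorem rank_parityMatrix_le (L : Finset ι) (a : ι → Fin 2 → m → ℚ) (x : ι → ℚ) :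
    (parityMatrix L a x).rank ≤ 2 * parityNumber L a := by
  classical
  obtain ⟨Z, hZ, hI, hr⟩ := parity_upper L (fun i => ![x i • a i 0, a i 1])
  have h1 : parityMatrix L a x = ∑ v ∈ L, (Matrix.vecMulVec ((![x v • a v 0, a v 1] : Fin 2 → m → ℚ) 0)
      ((![x v • a v 0, a v 1] : Fin 2 → m → ℚ) 1) -
        Matrix.vecMulVec ((![x v • a v 0, a v 1] : Fin 2 → m → ℚ) 1)
          ((![x v • a v 0, a v 1] : Fin 2 → m → ℚ) 0)) := by
    rw [parityMatrix_rat]
    rfl
  rw [h1]
  refine hr.trans (Nat.mul_le_mul_left 2 (le_parityNumber hZ ?_))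
  -- the unscaled vectors are independent
  have hx : ∀ i ∈ Z, x i ≠ 0 := by
    intro i hi h0
    have := hI.ne_zero (⟨⟨i, hi⟩, 0⟩ : Z × Fin 2)
    apply this
    simp [h0]
  have h2 := hI.units_smul (fun i : Z × Fin 2 =>
    if i.2 = 0 then (Units.mk0 (x i.1) (hx i.1.1 i.1.2))⁻¹ else 1)
  have h3 : (fun i : Z × Fin 2 => a i.1 i.2) = ((fun i : Z × Fin 2 =>
      if i.2 = 0 then (Units.mk0 (x i.1) (hx i.1.1 i.1.2))⁻¹ else 1) •
        fun i : Z × Fin 2 => (![x i.1 • a i.1 0, a i.1 1] : Fin 2 → m → ℚ) i.2) := by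
    funext ⟨⟨i, hi⟩, j⟩
    fin_cases j
    · simp [Units.smul_def, hx i hi, smul_smul]
    · simp [Units.smul_def]
  rw [h3]
  exact h2

theorem exists_rank_parityMatrix (L : Finset ι) (a : ι → Fin 2 → m → ℚ) :
    ∃ x : ι → ℚ, 2 * parityNumber L a ≤ (parityMatrix L a x).rank := by
  classical
  obtain ⟨Z, hZ, hI, hc⟩ := exists_parityNumber L a
  refine ⟨fun i => if i ∈ Z then 1 else 0, ?_⟩
  have h1 := parity_lower Z a hI
  rw [← hc, ← h1]
  apply le_of_eq
  congr 1
  rw [parityMatrix_rat]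
  symm
  rw [← Finset.sum_subset hZ]
  · refine Finset.sum_congr rfl fun i hi => ?_
    simp [hi]
  · intro i _ hi
    simp [hi]

open MvPolynomial in
open Classical in
/-- Schwartz-Zippel for the parity matrix. -/
theorem parityMatrix_count [Fintype ι] (L : Finset ι) (a : ι → Fin 2 → m → ℚ) (N : ℕ) :
    (Finset.univ.filter (fun x : ι → Fin N =>
        (parityMatrix L a (fun i => ((x i : ℕ) : ℚ))).rank ≠ 2 * parityNumber L a)).card * N ≤
      Fintype.card m * N ^ Fintype.card ι := by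
  obtain ⟨x₀, h0⟩ := exists_rank_parityMatrix L a
  have hmap : ∀ x : ι → ℚ,
      (parityMatrix L a (fun i : ι => (X i : MvPolynomial ι ℚ))).map (eval x) =
        parityMatrix L a x := by
    intro x
    ext u w
    simp [parityMatrix, Matrix.map_apply, map_sum]
  have hdeg : ∀ u w, (parityMatrix L a (fun i : ι => (X i : MvPolynomial ι ℚ)) u w).totalDegree
      ≤ 1 := by
    intro u w
    unfold parityMatrix
    refine totalDegree_finsetSum_le (fun i _ => ?_)
    refine (totalDegree_mul _ _).trans ?_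
    rw [totalDegree_X, MvPolynomial.algebraMap_eq, totalDegree_C]
  have hr : 2 * parityNumber L a ≤ Fintype.card m :=
    h0.trans (Matrix.rank_le_card_width _)
  obtain ⟨p, hp, hpd, hpe⟩ := O_exists_poly
    (parityMatrix L a (fun i : ι => (X i : MvPolynomial ι ℚ))) 1 (2 * parityNumber L a) hdeg x₀
    (by rw [hmap]; exact h0)
  have key := O_sz p hp N
  calc _ ≤ (univ.filter (fun ω : ι → Fin N =>
          eval (fun i => ((ω i : ℕ) : ℚ)) p = 0)).card * N := by
        refine Nat.mul_le_mul_right N (Finset.card_le_card ?_)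
        intro ω hω
        simp only [Finset.mem_filter, Finset.mem_univ, true_and] at hω ⊢
        refine hpe _ ?_
        rw [hmap]
        exact lt_of_le_of_ne (rank_parityMatrix_le L a _) hω
    _ ≤ p.totalDegree * N ^ Fintype.card ι := key
    _ ≤ Fintype.card m * N ^ Fintype.card ι := by
        refine Nat.mul_le_mul_right _ (hpd.trans ?_)
        omega

end

end Pool.Agent.Helper36.Pin
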