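import Pool.Agent.Helper36.Pin.Defs2

/-!
# Definitions for the deterministic form of the result

Coloops and core of the rigidity matroid of `G`, blocks, the filled graph, the explicit instance of
linear matroid parity, and the geometric form of pinning.
-/

namespace Pool.Agent.Helper36.Pin

open Finset Module

variable {V : Type} [Fintype V] [DecidableEq V]

/-! ### Coloops, core, blocks -/

open Classical in
/-- The coloops (bridges) of the rigidity matroid of `G`: the edges whose deletion lowers the
rank. -/
noncomputable def coloops (G : SimpleGraph V) : Finset (Sym2 V) :=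
  (edges G).filter (fun e => rk ((edges G).erase e) < rk (edges G))

open Classical in
/-- The core of `G`: all the edges which are not coloops. -/
noncomputable def core (G : SimpleGraph V) : Finset (Sym2 V) := edges G \ coloops G

/-- `X` is rigid in `F`. -/
def RigidIn (F : Finset (Sym2 V)) (X : Finset V) : Prop :=
  2 ≤ X.card ∧ rk (F ∩ X.sym2) + 3 = 2 * X.card

open Classical in
/-- The blocks of `G`: the maximal vertex sets which are rigid in the core. -/
noncomputable def blocks (G : SimpleGraph V) : Finset (Finset V) :=
  Finset.univ.filter (fun X => Maximal (RigidIn (core G)) X)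

/-- The filled graph: all the pairs inside blocks are added. -/
def fill (G : SimpleGraph V) : SimpleGraph V where
  Adj u v := G.Adj u v ∨ (u ≠ v ∧ ∃ X ∈ blocks G, u ∈ X ∧ v ∈ X)
  symm := ⟨fun _ _ h => h.elim (fun h => Or.inl h.symm)
    (fun ⟨h, X, hX, hu, hv⟩ => Or.inr ⟨h.symm, X, hX, hv, hu⟩)⟩
  loopless := ⟨fun _ h => h.elim (fun h => h.ne rfl) (fun h => h.1 rfl)⟩

open Classical in
/-- The pairs inside `Y` which meet `S`. -/
noncomputable def star (Y S : Finset V) : Finset (Sym2 V) :=
  Y.sym2.filter (fun e => ¬ e.IsDiag ∧ ∃ v ∈ S, v ∈ e)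

/-- The rank of the pairs inside a set with `m` elements which meet a subset with `s` elements. -/
def rho (m s : ℕ) : ℕ := if s = 0 then 0 else if s = 1 then m - 1 else 2 * m - 3

/-! ### The explicit instance of linear matroid parity -/

/-- the type of the blocks -/
abbrev Blk (G : SimpleGraph V) : Type := {X : Finset V // X ∈ blocks G}

/-- the first coordinates: one for each pair of vertices (only coloops are used), one for each
block -/
abbrev Gen0 (G : SimpleGraph V) : Type := Sym2 V ⊕ Blk G

/-- indices of the generators: pairs of elements of `Gen0 G`; a block and a number -/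
abbrev Gen (G : SimpleGraph V) : Type := (Gen0 G × Gen0 G) ⊕ (Blk G × Fin (Fintype.card V))

/-- the coordinates -/
abbrev Coord (G : SimpleGraph V) : Type :=
  Gen0 G ⊕ ((Blk G × Fin (Fintype.card V) × Fin 2) ⊕ (V × Fin 2))

/-- indices of the lines: a vertex and a generator, or only a vertex -/
abbrev Line (G : SimpleGraph V) : Type := (V × Gen G) ⊕ V

/-- the coloops at `v` and the blocks at `v` -/
def At0 (G : SimpleGraph V) (v : V) : Gen0 G → Prop
  | Sum.inl e => e ∈ coloops G ∧ v ∈ e
  | Sum.inr X => v ∈ X.1

/-- the generators at `v` -/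
def At (G : SimpleGraph V) (v : V) : Gen G → Prop
  | Sum.inl (g, g') => At0 G v g ∧ At0 G v g'
  | Sum.inr (X, i) => v ∈ X.1 ∧ (i : ℕ) + 2 < X.1.card

/-- The unit vector. -/
def single {m : Type} [DecidableEq m] (x : m) : m → ℚ := fun y => if y = x then 1 else 0

/-- The vector of the generator `g` at the vertex `v`; `t v` is the parameter of `v`. -/
def gvec (G : SimpleGraph V) (t : V → ℚ) (v : V) : Gen G → Coord G → ℚ
  | Sum.inl (g, g') => single (Sum.inl g) - single (Sum.inl g')
  | Sum.inr (X, i) =>
      single (Sum.inr (Sum.inl (X, i, 0))) + t v • single (Sum.inr (Sum.inl (X, i, 1)))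

/-- The two vectors which span a line. The line with index `(v, g)` is spanned by the vector of the
generator `g` and a vector in the plane of `v` (with coordinates `(1, c g)`), the line with index
`v` is the plane of `v`. -/
def vec (G : SimpleGraph V) (t : V → ℚ) (c : Gen G → ℚ) : Line G → Fin 2 → Coord G → ℚ
  | Sum.inl (v, g) => ![gvec G t v g,
      single (Sum.inr (Sum.inr (v, 0))) + c g • single (Sum.inr (Sum.inr (v, 1)))]
  | Sum.inr v => ![single (Sum.inr (Sum.inr (v, 0))), single (Sum.inr (Sum.inr (v, 1)))]

open Classical in
/-- The lines for the vertices in `U`. -/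
noncomputable def lines (G : SimpleGraph V) (U : Finset V) : Finset (Line G) :=
  Finset.univ.filter (fun l => match l with
    | Sum.inl (v, g) => v ∈ U ∧ At G v g
    | Sum.inr v => v ∈ U)

open Classical in
/-- The parity number of a finite family of lines `⟨a i 0, a i 1⟩`: the largest number of lines in
`L` whose spanning vectors are linearly independent altogether. -/
noncomputable def parityNumber {ι m : Type} (L : Finset ι) (a : ι → Fin 2 → m → ℚ) : ℕ :=
  (L.powerset.filter (fun Z : Finset ι =>
    LinearIndependent ℚ (fun i : Z × Fin 2 => a i.1 i.2))).sup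
    Finset.card

/-! ### The geometric form of pinning -/

/-- squared distance in the plane -/
def dsq (x y : Fin 2 → ℝ) : ℝ := (x 0 - y 0) ^ 2 + (x 1 - y 1) ^ 2

/-- A generic realization: the `2|V|` coordinates are algebraically independent over `ℚ`. -/
def Generic (p : V → Fin 2 → ℝ) : Prop :=
  AlgebraicIndependent ℚ (fun x : V × Fin 2 => p x.1 x.2)

/-- `P` pins `G` (geometric definition). -/
def GeomPins (G : SimpleGraph V) (P : Finset V) : Prop :=
  ∀ p : V → Fin 2 → ℝ, Generic p → ∀ q : V → Fin 2 → ℝ,
    (∀ u v, G.Adj u v → dsq (q u) (q v) = dsq (p u) (p v)) → (∀ v ∈ P, q v = p v) → q = p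

/-- `G` is globally rigid: the edge lengths determine the generic realizations up to isometry. -/
def GloballyRigid (G : SimpleGraph V) : Prop :=
  ∀ p : V → Fin 2 → ℝ, Generic p → ∀ q : V → Fin 2 → ℝ,
    (∀ u v, G.Adj u v → dsq (q u) (q v) = dsq (p u) (p v)) →
      ∀ u v, dsq (q u) (q v) = dsq (p u) (p v)

/-- The theorem of Jackson and Jordán for the graphs on the vertex set `V`. -/
def JacksonJordan (V : Type) [Fintype V] [DecidableEq V] : Prop :=
  4 ≤ Fintype.card V → ∀ G : SimpleGraph V, GloballyRigid G ↔ GR G Finset.univ

end Pool.Agent.Helper36.Pin
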