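import Pool.Agent.Helper36.Pin.M
import Pool.Agent.Helper36.Pin.Pmat
import Pool.Agent.Helper5.Pin.D2
import Pool.Agent.Helper14.Pin.QE
import Pool.Agent.Helper22.Pin.QB
import Pool.Agent.Helper28.Pin.H1
import Pool.Agent.Helper42.Pin.H2
import Pool.Agent.Helper44.Pin.QJ1
import Pool.Agent.Helper79.Pin.J2
import Pool.Agent.Helper3.Pin.K

/-!
# The pinning number and an explicit instance of linear matroid parity
-/

namespace Pool.Agent.Helper36.Pin

open Finset Module

variable {V : Type} [Fintype V] [DecidableEq V]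

namespace Asm

theorem hyp : ModQD.Hyp V :=
  ⟨comps_blocks, fun _ _ hX => block_card hX, fun _ _ hX e => block_redundant hX e, rk_parts,
    rk_inc_fill⟩

theorem feasA_of_fill {G : SimpleGraph V} {S : Finset V} {a b : V} (hab : a ≠ b)
    (hS : S.Nonempty) (hN : nbr G S = {a, b}) (hA : FeasA (fill G) S)
    (hsmall : ∀ S' ⊂ S, S'.Nonempty → 3 ≤ (nbr G S').card) : FeasA G S :=
  feasA_of_fill_of hyp hab hS hN hA hsmall

theorem crossing_card {G : SimpleGraph V} {X S : Finset V} (hX : X ∈ blocks G)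
    (hT : (nbr G S).card ≤ 2) (hXS : (X ∩ S).Nonempty) (hc : ¬ X ⊆ S ∪ nbr G S) :
    (nbr G S).card = 2 :=
  (crossing_of (block_card hX) (fun e => block_redundant hX e) hT hXS hc).2.1

theorem core_cover {G : SimpleGraph V} (e : Sym2 V) (he : e ∈ core G) :
    ∃ X ∈ blocks G, e ∈ X.sym2 := by
  refine (comps_blocks G).cover e he ?_
  have h1 : e ∈ edges G := (Finset.mem_sdiff.1 he).1
  exact G.not_isDiag_of_mem_edgeSet (mem_edges.1 h1)

theorem pins_of_fill (G : SimpleGraph V) (P : Finset V) (hP : 4 ≤ P.card)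
    (hA : FeasA (fill G) Pᶜ) (hN : ∀ S ⊆ Pᶜ, S.Nonempty → 3 ≤ (nbr G S).card) : Pins G P :=
  QE.pins_of_fill_of G P hP core_cover (fun _ hX e => block_redundant hX e) hA hN

theorem parity_eq (G : SimpleGraph V) (t : V → ℚ) (ht : Function.Injective t) (c : Gen G → ℚ)
    (hc : Function.Injective c) (U : Finset V) (ν : ℕ)
    (hν : IsGreatest {k | ∃ Z ⊆ U, FeasA (fill G) Z ∧ Z.card = k} ν) :
    parityNumber (lines G U) (vec G t c) = U.card + ν :=
  parity_eq_of G t c hc U (FeasA (fill G)) (feasA_fill_iff G t ht) ν hν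

theorem blocks_card_le (G : SimpleGraph V) (hV : 2 ≤ Fintype.card V) :
    (blocks G).card ≤ Fintype.card V :=
  blocks_card_le_of G (comps_blocks G) (fun _ hX => block_card hX) hV

end Asm

open Asm

theorem le_fill (G : SimpleGraph V) : G ≤ fill G := fun _ _ h => Or.inl h

theorem inc_subset_of_le {G H : SimpleGraph V} (h : G ≤ H) (S : Finset V) : inc G S ⊆ inc H S := by
  intro e
  induction e using Sym2.ind with
  | _ u v =>
    rw [mem_inc_mk, mem_inc_mk]
    exact fun h' => ⟨h h'.1, h'.2⟩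

/-- the edges of the filled graph at `S` if no block crosses -/
theorem inc_fill_subset {G : SimpleGraph V} {S : Finset V}
    (h : ∀ X ∈ blocks G, (X ∩ S).Nonempty → X ⊆ S ∪ nbr G S) :
    inc (fill G) S ⊆ (S ∪ nbr G S).sym2 := by
  intro e he
  have h0 := he
  induction e using Sym2.ind with
  | _ u v =>
    rw [mem_inc_mk] at he
    obtain ⟨hadj | ⟨hne, X, hX, hu, hv⟩, hS⟩ := he
    · exact inc_subset_sym2 S (mem_inc_mk.2 ⟨hadj, hS⟩)
    · have hXS : X ⊆ S ∪ nbr G S := by
        apply h X hX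
        rcases hS with hS | hS
        · exact ⟨u, Finset.mem_inter.2 ⟨hu, hS⟩⟩
        · exact ⟨v, Finset.mem_inter.2 ⟨hv, hS⟩⟩
      rw [mk_mem_sym2]
      exact ⟨hXS hu, hXS hv⟩

theorem nbr_of_fill {G : SimpleGraph V} {P₀ : Finset V} (h : Complete G P₀) (Z : Finset V)
    (hd : Disjoint Z P₀) (hZ : FeasA (fill G) Z) :
    ∀ S ⊆ Z, S.Nonempty → 3 ≤ (nbr G S).card := by
  classical
  intro S hS hne
  by_contra hlt
  push Not at hlt
  let fam : Finset (Finset V) := Z.powerset.filter (fun S => S.Nonempty ∧ (nbr G S).card < 3)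
  have hfam : fam.Nonempty := ⟨S, by simp [fam, hS, hne, hlt]⟩
  obtain ⟨S', hS', hmin⟩ := Finset.exists_min_image fam Finset.card hfam
  simp only [fam, Finset.mem_filter, Finset.mem_powerset] at hS' hmin
  obtain ⟨hS'Z, hS'ne, hS'lt⟩ := hS'
  have h2 : (nbr G S').card = 2 := by
    by_cases hcr : ∀ X ∈ blocks G, (X ∩ S').Nonempty → X ⊆ S' ∪ nbr G S'
    · have hsub := inc_fill_subset hcr
      have hr := hZ S' hS'Z hS'ne
      have hdis : Disjoint S' (nbr G S') := by
        rw [Finset.disjoint_left]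
        intro x hx hx'
        exact (mem_nbr.1 hx').1 hx
      have hc : (S' ∪ nbr G S').card = S'.card + (nbr G S').card :=
        Finset.card_union_of_disjoint hdis
      by_cases h2 : 2 ≤ (S' ∪ nbr G S').card
      · have := rk_inside_le _ _ h2 hsub
        omega
      · have := rk_inside_small _ (S' ∪ nbr G S') (by omega) hsub
        omega
    · push Not at hcr
      obtain ⟨X, hX, hXS, hc⟩ := hcr
      exact crossing_card hX (by omega) hXS hc
  obtain ⟨a, b, hab, hnb⟩ := Finset.card_eq_two.1 h2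
  have hsmall : ∀ S'' ⊂ S', S''.Nonempty → 3 ≤ (nbr G S'').card := by
    intro S'' hS'' hne''
    by_contra hlt''
    push Not at hlt''
    have := hmin S'' ⟨hS''.subset.trans hS'Z, hne'', hlt''⟩
    have := Finset.card_lt_card hS''
    omega
  have hE : EndData G S' a b :=
    ⟨hab, hnb, hS'ne, feasA_of_fill hab hS'ne hnb (hZ.mono hS'Z) hsmall, hsmall⟩
  exact h.2 S' a b ((isEnd_iff G S' a b).2 hE) (Finset.disjoint_of_subset_left hS'Z hd)

theorem FeasA.fill {G : SimpleGraph V} {Z : Finset V} (h : FeasA G Z) : FeasA (fill G) Z :=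
  fun S hS hne => (h S hS hne).trans (rk_mono (inc_subset_of_le (le_fill G) S))

theorem pin_fill (G : SimpleGraph V) (hV : 4 ≤ Fintype.card V) (P₀ : Finset V)
    (hP₀ : Complete G P₀) (h3 : ¬ ∃ P : Finset V, P.card = 3 ∧ Pins G P) (ν : ℕ)
    (hν : IsGreatest {k | ∃ Z ⊆ P₀ᶜ, FeasA (fill G) Z ∧ Z.card = k} ν) :
    pin G = max 4 (Fintype.card V - ν) := by
  apply le_antisymm
  · obtain ⟨⟨Z, hZd, hZA, hZc⟩, _⟩ := hν
    have hdis : Disjoint Z P₀ := by
      rw [Finset.disjoint_left]
      intro x hx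
      exact Finset.mem_compl.1 (hZd hx)
    obtain ⟨Z₁, hZ₁, hc₁⟩ := Finset.exists_subset_card_eq
      (show min ν (Fintype.card V - 4) ≤ Z.card by omega)
    have hcc : Z₁ᶜ.card = max 4 (Fintype.card V - ν) := by
      rw [Finset.card_compl, hc₁]
      omega
    refine Nat.sInf_le ⟨Z₁ᶜ, hcc, ?_⟩
    apply pins_of_fill G _ (by rw [hcc]; exact le_max_left _ _)
    · rw [compl_compl]
      exact hZA.mono hZ₁
    · rw [compl_compl]
      exact nbr_of_fill hP₀ Z₁ (Finset.disjoint_of_subset_left hZ₁ hdis) (hZA.mono hZ₁)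
  · have hne : {k | ∃ P : Finset V, P.card = k ∧ Pins G P}.Nonempty :=
      ⟨_, Finset.univ, rfl, Or.inl rfl⟩
    apply le_csInf hne
    rintro k ⟨P, rfl, hP⟩
    have h3' := hP.three_le hV
    have h4 : 4 ≤ P.card := by
      by_contra hlt
      exact h3 ⟨P, by omega, hP⟩
    rw [pins_iff G P h4] at hP
    obtain ⟨Z', hZ', hc, hdis⟩ := forced_exchange hP₀.1 _ hP
    have hsub : Z' ⊆ P₀ᶜ := by
      intro x hx
      rw [Finset.mem_compl]
      exact Finset.disjoint_left.1 hdis hx
    have := hν.2 ⟨Z', hsub, hZ'.feasA.fill, rfl⟩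
    rw [Finset.card_compl] at hc
    omega

/-- the optimum exists -/
theorem exists_optimum_fill (G : SimpleGraph V) (U : Finset V) :
    ∃ ν, IsGreatest {k | ∃ Z ⊆ U, FeasA (fill G) Z ∧ Z.card = k} ν := by
  classical
  have hne : (U.powerset.filter (fun Z : Finset V => FeasA (fill G) Z)).Nonempty := by
    refine ⟨∅, ?_⟩
    rw [Finset.mem_filter]
    refine ⟨Finset.mem_powerset.2 (Finset.empty_subset _), ?_⟩
    intro S hS hn
    exact absurd (Finset.subset_empty.1 hS) hn.ne_empty
  obtain ⟨Z, hZ, hmax⟩ := Finset.exists_max_image _ Finset.card hne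
  rw [Finset.mem_filter, Finset.mem_powerset] at hZ
  refine ⟨Z.card, ⟨Z, hZ.1, hZ.2, rfl⟩, ?_⟩
  rintro k ⟨Z', h1, h2, rfl⟩
  exact hmax Z' (Finset.mem_filter.2 ⟨Finset.mem_powerset.2 h1, h2⟩)

theorem pin_small (G : SimpleGraph V) (hV : Fintype.card V ≤ 3) : pin G = Fintype.card V := by
  have key : ∀ P : Finset V, Pins G P → P = Finset.univ := by
    rintro P (h | ⟨h, _⟩)
    · exact h
    · exact Finset.eq_univ_of_card P (le_antisymm (Finset.card_le_univ P) (hV.trans h))
  apply le_antisymm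
  · exact Nat.sInf_le ⟨Finset.univ, Finset.card_univ, Or.inl rfl⟩
  · have hne : {k | ∃ P : Finset V, P.card = k ∧ Pins G P}.Nonempty :=
      ⟨_, Finset.univ, rfl, Or.inl rfl⟩
    apply le_csInf hne
    rintro k ⟨P, rfl, hP⟩
    rw [key P hP, Finset.card_univ]

theorem geomPins_univ (G : SimpleGraph V) : GeomPins G Finset.univ :=
  fun _ _ _ _ h => funext fun v => h v (mem_univ v)

theorem geomPins_iff (hJJ : JacksonJordan V) (G : SimpleGraph V) (P : Finset V) :
    GeomPins G P ↔ Pins G P := by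
  by_cases hP : P.card ≤ 2
  · constructor
    · intro h
      exact Or.inl (geomPins_small G P hP h)
    · rintro (rfl | ⟨h, _⟩)
      · exact geomPins_univ G
      · omega
  · push Not at hP
    by_cases hu : P = Finset.univ
    · subst hu
      exact ⟨fun _ => Or.inl rfl, fun _ => geomPins_univ G⟩
    · have h4 : 4 ≤ Fintype.card V := by
        have h1 : P ⊂ Finset.univ := Finset.ssubset_univ_iff.2 hu
        have h2 := Finset.card_lt_card h1
        rw [Finset.card_univ] at h2
        omega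
      rw [geomPins_large G P hP, hJJ h4]
      constructor
      · intro h
        exact Or.inr ⟨hP, h⟩
      · rintro (h | h)
        · exact absurd h hu
        · exact h.2

theorem pin_parity (G : SimpleGraph V) (hV : 4 ≤ Fintype.card V)
    (h3 : ¬ ∃ P : Finset V, P.card = 3 ∧ Pins G P) (P₀ : Finset V) (hP₀ : Complete G P₀)
    (t : V → ℚ) (c : Gen G → ℚ) (ht : Function.Injective t) (hc : Function.Injective c) :
    pin G = max 4 (Fintype.card V + (P₀ᶜ).card - parityNumber (lines G P₀ᶜ) (vec G t c)) := by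
  obtain ⟨ν, hν⟩ := exists_optimum_fill G P₀ᶜ
  rw [pin_fill G hV P₀ hP₀ h3 ν hν, parity_eq G t ht c hc P₀ᶜ ν hν]
  congr 1
  omega


theorem size_bounds (G : SimpleGraph V) (hV : 2 ≤ Fintype.card V) :
    Fintype.card (Coord G) ≤ 4 * (Fintype.card V + 1) ^ 2 ∧
      Fintype.card (Line G) ≤ 2 * (Fintype.card V + 1) ^ 5 :=
  size_bounds_of G (blocks_card_le G hV)

open Classical in
/-- The pinning number as the rank of a matrix, for almost all integer values of the variables. -/
theorem pin_rank (G : SimpleGraph V) (hV : 4 ≤ Fintype.card V)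
    (h3 : ¬ ∃ P : Finset V, P.card = 3 ∧ Pins G P) (P₀ : Finset V) (hP₀ : Complete G P₀)
    (t : V → ℚ) (c : Gen G → ℚ) (ht : Function.Injective t) (hc : Function.Injective c) (N : ℕ) :
    (Finset.univ.filter (fun x : Line G → Fin N =>
      pin G ≠ max 4 (Fintype.card V + (P₀ᶜ).card -
        (parityMatrix (lines G P₀ᶜ) (vec G t c) (fun i => ((x i : ℕ) : ℚ))).rank / 2))).card * N ≤
      4 * (Fintype.card V + 1) ^ 2 * N ^ Fintype.card (Line G) := by
  have h1 := parityMatrix_count (lines G P₀ᶜ) (vec G t c) N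
  have h2 := (size_bounds G (by omega)).1
  refine le_trans (Nat.mul_le_mul_right N (Finset.card_le_card ?_))
    (h1.trans (Nat.mul_le_mul_right _ h2))
  intro x hx
  rw [Finset.mem_filter] at hx ⊢
  refine ⟨mem_univ _, ?_⟩
  intro heq
  apply hx.2
  rw [heq, Nat.mul_div_cancel_left _ (by norm_num)]
  exact pin_parity G hV h3 P₀ hP₀ t c ht hc

end Pool.Agent.Helper36.Pin
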