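import Mathlib

/-!
# The pinning number of a graph in the plane: definitions

Combinatorial form (Jackson-Jordán): for `|V| ≥ 4` a vertex set `P` pins `G` iff `|P| ≥ 3` and
`G + K(P)` is 3-connected and redundantly rigid.
-/

namespace Pool.Agent.Helper36.Pin

open Finset

variable {V : Type*} [Fintype V] [DecidableEq V]

/-- Laman's condition: the edge set `F` (unordered pairs of distinct vertices) is *sparse* if every
vertex set `X` with at least two elements contains at most `2|X| - 3` edges of `F`. -/
def Sparse (F : Finset (Sym2 V)) : Prop :=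
  (∀ e ∈ F, ¬ e.IsDiag) ∧ ∀ X : Finset V, 2 ≤ X.card → (F ∩ X.sym2).card + 3 ≤ 2 * X.card

open Classical in
/-- The rank of an edge set in the generic rigidity matroid of the plane: the largest size of a
sparse subset. -/
noncomputable def rk (F : Finset (Sym2 V)) : ℕ :=
  (F.powerset.filter (fun I => Sparse I)).sup Finset.card

open Classical in
/-- the edge set of a graph, as a finset -/
noncomputable def edges (G : SimpleGraph V) : Finset (Sym2 V) :=
  Finset.univ.filter (fun e => e ∈ G.edgeSet)

open Classical in
/-- the edges of `G` with at least one end in `S` -/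
noncomputable def inc (G : SimpleGraph V) (S : Finset V) : Finset (Sym2 V) :=
  (edges G).filter (fun e => ∃ v ∈ S, v ∈ e)

open Classical in
/-- the neighbours of `S` outside of `S` -/
noncomputable def nbr (G : SimpleGraph V) (S : Finset V) : Finset V :=
  Finset.univ.filter (fun v => v ∉ S ∧ ∃ u ∈ S, G.Adj u v)

/-- `G[X]` is 3-connected: `|X| ≥ 4` and no two (or fewer) vertices separate `G[X]`. -/
def ThreeConn (G : SimpleGraph V) (X : Finset V) : Prop :=
  4 ≤ X.card ∧ ∀ T ⊆ X, T.card ≤ 2 → (G.induce ((X \ T : Finset V) : Set V)).Connected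

/-- `G[X]` is redundantly rigid in the plane: it is rigid and remains rigid after deletion of any
edge. -/
def RedRigid (G : SimpleGraph V) (X : Finset V) : Prop :=
  rk (edges G ∩ X.sym2) + 3 = 2 * X.card ∧
    ∀ e ∈ edges G ∩ X.sym2, rk ((edges G ∩ X.sym2).erase e) + 3 = 2 * X.card

/-- The Jackson-Jordán condition for `G[X]` (for `|X| ≥ 4`): 3-connected and redundantly rigid. -/
def GR (G : SimpleGraph V) (X : Finset V) : Prop := ThreeConn G X ∧ RedRigid G X

/-- The complete graph on `P` (all the other vertices are isolated). -/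
def completeOn (P : Finset V) : SimpleGraph V where
  Adj u v := u ≠ v ∧ u ∈ P ∧ v ∈ P
  symm := ⟨fun _ _ h => ⟨h.1.symm, h.2.2, h.2.1⟩⟩
  loopless := ⟨fun _ h => h.1 rfl⟩

/-- `P` pins `G`: `P` is the whole vertex set, or `|P| ≥ 3` and `G + K(P)` satisfies the
Jackson-Jordán condition (in particular `|V| ≥ 4` in this case). -/
def Pins (G : SimpleGraph V) (P : Finset V) : Prop :=
  P = Finset.univ ∨ (3 ≤ P.card ∧ GR (G ⊔ completeOn P) Finset.univ)

/-- The pinning number. -/
noncomputable def pin (G : SimpleGraph V) : ℕ := sInf {k | ∃ P : Finset V, P.card = k ∧ Pins G P}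

/-- `F` is an *end* of `G` with attachments `a`, `b`: the neighbours of `F` are exactly `a`, `b`,
and `G[F ∪ {a,b}] + ab` is 3-connected and redundantly rigid. -/
structure IsEnd (G : SimpleGraph V) (F : Finset V) (a b : V) : Prop where
  ne : a ≠ b
  nbr_eq : nbr G F = {a, b}
  gr : GR (G ⊔ SimpleGraph.edge a b) (F ∪ {a, b})

/-- Sets obtained by the greedy procedure: repeatedly take an end which is disjoint from the present
set and add an arbitrary vertex of it. -/
inductive Forced (G : SimpleGraph V) : Finset V → Prop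
  | nil : Forced G ∅
  | cons {P₀ F : Finset V} {a b p : V} : Forced G P₀ → IsEnd G F a b → Disjoint F P₀ → p ∈ F →
      Forced G (insert p P₀)

/-- A final set of the greedy procedure: every end meets it. -/
def Complete (G : SimpleGraph V) (P₀ : Finset V) : Prop :=
  Forced G P₀ ∧ ∀ F a b, IsEnd G F a b → ¬ Disjoint F P₀

/-- Rank condition on `Z` -/
def FeasA (G : SimpleGraph V) (Z : Finset V) : Prop :=
  ∀ S ⊆ Z, S.Nonempty → 2 * S.card + 1 ≤ rk (inc G S)

/-- Rank and connectivity condition on `Z` -/
def Feas (G : SimpleGraph V) (Z : Finset V) : Prop :=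
  ∀ S ⊆ Z, S.Nonempty → 2 * S.card + 1 ≤ rk (inc G S) ∧ 3 ≤ (nbr G S).card

/-! ## The matrix -/

/-- The variables: coordinates of the points (`inl`), coefficients of a linear functional
(`inr inl`), and coefficients `c v j k w` (`inr inr`). -/
abbrev Var (V : Type*) := (V × Fin 2) ⊕ (V × Fin 2) ⊕ (V × Fin 2 × Fin 2 × V)

section matrix

variable {R : Type*} [CommRing R]

/-- The row of the rigidity matrix of the framework `p` which belongs to the edge `vw`. -/
def row (p : V → Fin 2 → R) (v w : V) : V × Fin 2 → R := fun u =>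
  (p v u.2 - p w u.2) * ((if u.1 = v then 1 else 0) - (if u.1 = w then 1 else 0))

/-- points -/
def pt (ω : Var V → R) : V → Fin 2 → R := fun v i => ω (Sum.inl (v, i))

/-- the linear functional -/
def fn (ω : Var V → R) (x : V × Fin 2 → R) : R := ∑ u : V × Fin 2, ω (Sum.inr (Sum.inl u)) * x u

open Classical in
/-- `b v j k`: a combination of the rows of the edges at `v` -/
noncomputable def bv (G : SimpleGraph V) (ω : Var V → R) (v : V) (j k : Fin 2) : V × Fin 2 → R :=
  ∑ w ∈ Finset.univ.filter (fun w => G.Adj v w),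
    ω (Sum.inr (Sum.inr (v, j, k, w))) • row (pt ω) v w

/-- `y v j`: a combination of the rows of the edges at `v` which is killed by the functional -/
noncomputable def yv (G : SimpleGraph V) (ω : Var V → R) (v : V) (j : Fin 2) : V × Fin 2 → R :=
  fn ω (bv G ω v j 1) • bv G ω v j 0 - fn ω (bv G ω v j 0) • bv G ω v j 1

/-- The skew-symmetric matrix `∑_{v ∈ U} (y_{v,0} y_{v,1}ᵀ - y_{v,1} y_{v,0}ᵀ)` of size `2|V|`. -/
noncomputable def T (G : SimpleGraph V) (U : Finset V) (ω : Var V → R) :
    Matrix (V × Fin 2) (V × Fin 2) R :=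
  ∑ v ∈ U, (Matrix.vecMulVec (yv G ω v 0) (yv G ω v 1) -
    Matrix.vecMulVec (yv G ω v 1) (yv G ω v 0))

end matrix

end Pool.Agent.Helper36.Pin
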