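import Pool.Agent.Helper36.Pin.Defs

/-!
# Auxiliary definitions shared by the modules, and the basic API
-/

namespace Pool.Agent.Helper36.Pin

open Finset Module

variable {V : Type} [Fintype V] [DecidableEq V]

/-- the row of an unordered pair -/
noncomputable def rowE (p : V → Fin 2 → ℚ) (e : Sym2 V) : V × Fin 2 → ℚ :=
  row p (Quot.out e).1 (Quot.out e).2

/-- Decomposition into rigid components. -/
structure Comps (F : Finset (Sym2 V)) (𝒳 : Finset (Finset V)) : Prop where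
  two_le : ∀ X ∈ 𝒳, 2 ≤ X.card
  cover : ∀ e ∈ F, ¬ e.IsDiag → ∃ X ∈ 𝒳, e ∈ X.sym2
  inter : ∀ X ∈ 𝒳, ∀ Y ∈ 𝒳, X ≠ Y → (X ∩ Y).card ≤ 1
  rigid : ∀ X ∈ 𝒳, rk (F ∩ X.sym2) + 3 = 2 * X.card
  sum : ∑ X ∈ 𝒳, (2 * X.card - 3) = rk F
  maximal : ∀ Y : Finset V, 2 ≤ Y.card → 2 * Y.card ≤ rk (F ∩ Y.sym2) + 3 → ∃ X ∈ 𝒳, Y ⊆ X
  closure : ∀ u v, u ≠ v → rk (insert s(u, v) F) = rk F → ∃ X ∈ 𝒳, u ∈ X ∧ v ∈ X

/-- The combinatorial data of an end. -/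
structure EndData (G : SimpleGraph V) (F : Finset V) (a b : V) : Prop where
  ne : a ≠ b
  nbr_eq : nbr G F = {a, b}
  nonempty : F.Nonempty
  feasA : FeasA G F
  small : ∀ S ⊂ F, S.Nonempty → 3 ≤ (nbr G S).card

theorem mem_edges {G : SimpleGraph V} {e : Sym2 V} : e ∈ edges G ↔ e ∈ G.edgeSet := by
  simp [edges]

theorem mem_edges_mk {G : SimpleGraph V} {u v : V} : s(u, v) ∈ edges G ↔ G.Adj u v := by
  simp [edges]

theorem mem_inc {G : SimpleGraph V} {S : Finset V} {e : Sym2 V} :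
    e ∈ inc G S ↔ e ∈ G.edgeSet ∧ ∃ v ∈ S, v ∈ e := by
  simp [inc, edges]

theorem mem_inc_mk {G : SimpleGraph V} {S : Finset V} {u v : V} :
    s(u, v) ∈ inc G S ↔ G.Adj u v ∧ (u ∈ S ∨ v ∈ S) := by
  simp only [mem_inc, SimpleGraph.mem_edgeSet, Sym2.mem_iff]
  constructor
  · rintro ⟨h, x, hx, rfl | rfl⟩
    · exact ⟨h, Or.inl hx⟩
    · exact ⟨h, Or.inr hx⟩
  · rintro ⟨h, hx | hx⟩
    · exact ⟨h, u, hx, Or.inl rfl⟩
    · exact ⟨h, v, hx, Or.inr rfl⟩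

theorem mem_nbr {G : SimpleGraph V} {S : Finset V} {v : V} :
    v ∈ nbr G S ↔ v ∉ S ∧ ∃ u ∈ S, G.Adj u v := by
  simp [nbr]

theorem not_isDiag_of_mem_inc {G : SimpleGraph V} {S : Finset V} {e : Sym2 V} (h : e ∈ inc G S) :
    ¬ e.IsDiag := G.not_isDiag_of_mem_edgeSet (mem_inc.1 h).1

theorem mk_mem_sym2 {X : Finset V} {u v : V} : s(u, v) ∈ X.sym2 ↔ u ∈ X ∧ v ∈ X :=
  Finset.mk_mem_sym2_iff

theorem inc_mono {G : SimpleGraph V} {S S' : Finset V} (h : S ⊆ S') : inc G S ⊆ inc G S' := by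
  intro e he
  rw [mem_inc] at he ⊢
  obtain ⟨h1, v, hv, hve⟩ := he
  exact ⟨h1, v, h hv, hve⟩

theorem inc_union {G : SimpleGraph V} (S S' : Finset V) :
    inc G (S ∪ S') = inc G S ∪ inc G S' := by
  ext e
  simp only [mem_union, mem_inc]
  constructor
  · rintro ⟨h1, v, hv | hv, hve⟩
    · exact Or.inl ⟨h1, v, hv, hve⟩
    · exact Or.inr ⟨h1, v, hv, hve⟩
  · rintro (⟨h1, v, hv, hve⟩ | ⟨h1, v, hv, hve⟩)
    · exact ⟨h1, v, Or.inl hv, hve⟩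
    · exact ⟨h1, v, Or.inr hv, hve⟩

theorem inc_empty {G : SimpleGraph V} : inc G ∅ = ∅ := by
  ext e; simp [mem_inc]

/-- the edges at `S` lie inside `S ∪ nbr G S` -/
theorem inc_subset_sym2 {G : SimpleGraph V} (S : Finset V) : inc G S ⊆ (S ∪ nbr G S).sym2 := by
  intro e
  induction e using Sym2.ind with
  | _ u v =>
    rw [mem_inc_mk, mk_mem_sym2]
    rintro ⟨h, hu | hv⟩
    · refine ⟨mem_union_left _ hu, ?_⟩
      by_cases hv : v ∈ S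
      · exact mem_union_left _ hv
      · exact mem_union_right _ (mem_nbr.2 ⟨hv, u, hu, h⟩)
    · refine ⟨?_, mem_union_left _ hv⟩
      by_cases hu : u ∈ S
      · exact mem_union_left _ hu
      · exact mem_union_right _ (mem_nbr.2 ⟨hu, v, hv, h.symm⟩)

end Pool.Agent.Helper36.Pin
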