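import Pool.Agent.Helper37.Pin.IFinal

/-!
Module I (`gr_iff`) is in `Pool.Agent.Helper37.Pin.IFinal`.
-/
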