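import Pool.Agent.Helper16.Pin.EndK
import Pool.Agent.Helper5.Pin.G

namespace Pool.Agent.Helper36.Pin

open Finset Module

variable {V : Type} [Fintype V] [DecidableEq V]

theorem EndData.symm {G : SimpleGraph V} {F : Finset V} {a b : V} (h : EndData G F a b) :
    EndData G F b a :=
  ⟨h.ne.symm, by rw [h.nbr_eq, Finset.pair_comm], h.nonempty, h.feasA, h.small⟩

theorem EndData.a_notMem {G : SimpleGraph V} {F : Finset V} {a b : V} (h : EndData G F a b) :
    a ∉ F := by
  have : a ∈ nbr G F := by rw [h.nbr_eq]; simp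
  exact (mem_nbr.1 this).1

theorem EndData.eq_or {G : SimpleGraph V} {F : Finset V} {a b : V} (h : EndData G F a b)
    {u w : V} (hu : u ∈ F) (hw : w ∉ F) (hadj : G.Adj u w) : w = a ∨ w = b := by
  have : w ∈ nbr G F := mem_nbr.2 ⟨hw, u, hu, hadj⟩
  rw [h.nbr_eq] at this
  simpa using this

/-- edges at a set which avoids `F, a, b` do not meet `F` -/
theorem EndData.inc_subset {G : SimpleGraph V} {F : Finset V} {a b : V} (h : EndData G F a b)
    {S S₂ : Finset V} (hS : S₂ ⊆ S) (hF : Disjoint S₂ F) (ha : a ∉ S₂) (hb : b ∉ S₂) :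
    inc G S₂ ⊆ inc G S \ inc G F := by
  intro e he
  rw [Finset.mem_sdiff]
  refine ⟨inc_mono hS he, ?_⟩
  induction e using Sym2.ind with
  | _ u v =>
    rw [mem_inc_mk] at he ⊢
    rintro ⟨_, hF'⟩
    obtain ⟨hadj, hS'⟩ := he
    have key : ∀ x y, G.Adj x y → x ∈ S₂ → y ∈ F → False := by
      intro x y hxy hx hy
      have hxF : x ∉ F := Finset.disjoint_left.1 hF hx
      rcases h.eq_or hy hxF hxy.symm with h1 | h1
      · exact ha (h1 ▸ hx)
      · exact hb (h1 ▸ hx)
    rcases hS' with hu | hv
    · rcases hF' with hu' | hv'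
      · exact Finset.disjoint_left.1 hF hu hu'
      · exact key u v hadj hu hv'
    · rcases hF' with hu' | hv'
      · exact key v u hadj.symm hv hu'
      · exact Finset.disjoint_left.1 hF hv hv'

theorem EndData.sepS {G : SimpleGraph V} {F : Finset V} {a b : V} (h : EndData G F a b)
    (S : Finset V) :
    rk (inc G S ∩ inc G F) + rk (inc G S \ inc G F) ≤ rk (inc G S) ∨
      (rk (inc G S ∩ inc G F) + rk (inc G S \ inc G F) ≤ rk (inc G S) + 1 ∧
        rk (insert s(a, b) (inc G S ∩ inc G F)) = rk (inc G S ∩ inc G F) ∧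
        rk (insert s(a, b) (inc G S \ inc G F)) = rk (inc G S \ inc G F)) := by
  have h1 := sep (inc G S ∩ inc G F) (inc G S \ inc G F) F a b h.ne h.a_notMem h.symm.a_notMem
    (by
      refine Finset.inter_subset_right.trans ?_
      have := inc_subset_sym2 (G := G) F
      rwa [h.nbr_eq] at this)
    (by
      intro e he
      rw [Finset.mem_sdiff] at he
      induction e using Sym2.ind with
      | _ u v =>
        rw [mk_mem_sym2]
        rw [mem_inc_mk, mem_inc_mk] at he
        simp only [Finset.mem_compl]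
        tauto)
  have h2 : (inc G S ∩ inc G F) ∪ (inc G S \ inc G F) = inc G S := by
    rw [Finset.union_comm]; exact Finset.sdiff_union_inter _ _
  rwa [h2] at h1

/-- case 0: neither `a` nor `b` in `S` -/
theorem EndData.rank0 {G : SimpleGraph V} {F : Finset V} {a b : V} (h : EndData G F a b)
    (S : Finset V) (ha : a ∉ S) (hb : b ∉ S) (h1 : 2 * (S ∩ F).card + 1 ≤ rk (inc G (S ∩ F)))
    (h2 : 2 * (S \ F).card + 1 ≤ rk (inc G (S \ F))) : 2 * S.card + 1 ≤ rk (inc G S) := by
  have hC : rk (inc G (S ∩ F)) ≤ rk (inc G S ∩ inc G F) :=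
    rk_mono (Finset.subset_inter (inc_mono Finset.inter_subset_left)
      (inc_mono Finset.inter_subset_right))
  have hB : rk (inc G (S \ F)) ≤ rk (inc G S \ inc G F) :=
    rk_mono (h.inc_subset Finset.sdiff_subset Finset.sdiff_disjoint
      (fun h' => ha (Finset.mem_sdiff.1 h').1) (fun h' => hb (Finset.mem_sdiff.1 h').1))
  have hc : S.card = (S ∩ F).card + (S \ F).card := (Finset.card_inter_add_card_sdiff S F).symm
  rcases h.sepS S with h3 | ⟨h3, _, _⟩ <;> omega

/-- case 1: `b ∈ S`, `a ∉ S` -/
theorem EndData.rank1 {G : SimpleGraph V} {F : Finset V} {a b : V} (h : EndData G F a b)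
    (S : Finset V) (ha : a ∉ S) (hb : b ∈ S) (p : V) (hp : p ∈ F) (hpS : p ∉ S)
    (h2 : ((S \ F).erase b).Nonempty → 2 * ((S \ F).erase b).card + 1 ≤
      rk (inc G ((S \ F).erase b)))
    (h3 : (S \ F).erase b = ∅ → ∃ w, G.Adj b w ∧ w ∉ F) : 2 * S.card + 1 ≤ rk (inc G S) := by
  have hbF : b ∉ F := h.symm.a_notMem
  have hC : inc G S ∩ inc G F = inc G F ∩ inc G (insert b (S ∩ F)) := by
    rw [Finset.inter_comm]
    ext e
    simp only [Finset.mem_inter]
    constructor
    · rintro ⟨he1, he2⟩
      refine ⟨he1, ?_⟩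
      induction e using Sym2.ind with
      | _ u v =>
        rw [mem_inc_mk] at he1 he2 ⊢
        obtain ⟨hadj, hF⟩ := he1
        obtain ⟨_, hS⟩ := he2
        refine ⟨hadj, ?_⟩
        simp only [Finset.mem_insert, Finset.mem_inter]
        have key : ∀ x y, G.Adj x y → x ∈ S → y ∈ F → x ∉ F → x = b := by
          intro x y hxy hx hy hxF
          rcases h.eq_or hy hxF hxy.symm with h1 | h1
          · exact absurd (h1 ▸ hx) ha
          · exact h1
        by_cases huF : u ∈ F <;> by_cases hvF : v ∈ F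
        · rcases hS with hS | hS
          · exact Or.inl (Or.inr ⟨hS, huF⟩)
          · exact Or.inr (Or.inr ⟨hS, hvF⟩)
        · rcases hS with hS | hS
          · exact Or.inl (Or.inr ⟨hS, huF⟩)
          · exact Or.inr (Or.inl (key v u hadj.symm hS huF hvF))
        · rcases hS with hS | hS
          · exact Or.inl (Or.inl (key u v hadj hS hvF huF))
          · exact Or.inr (Or.inr ⟨hS, hvF⟩)
        · exact absurd hF (by tauto)
    · rintro ⟨he1, he2⟩
      refine ⟨he1, inc_mono ?_ he2⟩
      intro x hx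
      rcases Finset.mem_insert.1 hx with rfl | hx
      · exact hb
      · exact (Finset.mem_inter.1 hx).1
  have hK := h.claimK (S ∩ F) p Finset.inter_subset_right hp
    (fun h' => hpS (Finset.mem_inter.1 h').1)
  rw [← hC] at hK
  obtain ⟨hK1, hK2⟩ := hK
  have hB : rk (inc G ((S \ F).erase b)) ≤ rk (inc G S \ inc G F) := by
    apply rk_mono
    apply h.inc_subset
    · exact (Finset.erase_subset _ _).trans Finset.sdiff_subset
    · exact Finset.disjoint_of_subset_left (Finset.erase_subset _ _) Finset.sdiff_disjoint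
    · intro h'
      exact ha (Finset.mem_sdiff.1 (Finset.mem_of_mem_erase h')).1
    · simp
  have hc : S.card = (S ∩ F).card + ((S \ F).erase b).card + 1 := by
    have h4 : ((S \ F).erase b).card + 1 = (S \ F).card :=
      Finset.card_erase_add_one (Finset.mem_sdiff.2 ⟨hb, hbF⟩)
    have h5 := Finset.card_inter_add_card_sdiff S F
    omega
  have hmono : rk (inc G S ∩ inc G F) ≤ rk (inc G S) := rk_mono Finset.inter_subset_left
  rcases Finset.eq_empty_or_nonempty ((S \ F).erase b) with he | hne
  · -- S₂' empty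
    have hc0 : ((S \ F).erase b).card = 0 := by rw [he]; rfl
    by_cases hlt : rk (inc G S ∩ inc G F) = 2 * ((S ∩ F).card + 1)
    · obtain ⟨w, hw, hwF⟩ := h3 he
      have hB1 : 1 ≤ rk (inc G S \ inc G F) := by
        rw [← rk_singleton hw.ne]
        apply rk_mono
        rw [Finset.singleton_subset_iff, Finset.mem_sdiff, mem_inc_mk, mem_inc_mk]
        refine ⟨⟨hw, Or.inl hb⟩, ?_⟩
        rintro ⟨_, h6 | h6⟩
        · exact hbF h6
        · exact hwF h6
      rcases h.sepS S with h4 | ⟨_, h4, _⟩
      · omega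
      · exact absurd h4 (hK2 hlt)
    · omega
  · have h6 := h2 hne
    by_cases hlt : rk (inc G S ∩ inc G F) = 2 * ((S ∩ F).card + 1)
    · rcases h.sepS S with h4 | ⟨_, h4, _⟩
      · omega
      · exact absurd h4 (hK2 hlt)
    · rcases h.sepS S with h4 | ⟨h4, _, _⟩ <;> omega

/-- case 2: both `a, b ∈ S` -/
theorem EndData.rank2 {G : SimpleGraph V} {F : Finset V} {a b : V} (h : EndData G F a b)
    (S : Finset V) (ha : a ∈ S) (hb : b ∈ S) (p x : V) (hp : p ∈ F) (hpS : p ∉ S) (hx : x ∈ F)
    (h2 : 2 * (F.erase x ∪ (S \ F)).card + 1 ≤ rk (inc G (F.erase x ∪ (S \ F)))) :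
    2 * S.card + 1 ≤ rk (inc G S) := by
  have haF : a ∉ F := h.a_notMem
  have hbF : b ∉ F := h.symm.a_notMem
  have hK := h.both (S ∩ F) p Finset.inter_subset_right hp
    (fun h' => hpS (Finset.mem_inter.1 h').1)
  have hC : rk (inc G F ∩ inc G (insert a (insert b (S ∩ F)))) ≤ rk (inc G S ∩ inc G F) := by
    apply rk_mono
    rw [Finset.inter_comm (inc G S)]
    apply Finset.inter_subset_inter_left
    apply inc_mono
    intro y hy
    rcases Finset.mem_insert.1 hy with rfl | hy
    · exact ha
    · rcases Finset.mem_insert.1 hy with rfl | hy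
      · exact hb
      · exact (Finset.mem_inter.1 hy).1
  have hT : rk (inc G (F.erase x ∪ (S \ F))) ≤ rk (inc G F ∪ (inc G S \ inc G F)) := by
    apply rk_mono
    rw [Finset.union_sdiff_self_eq_union, ← inc_union]
    apply inc_mono
    apply Finset.union_subset_union (Finset.erase_subset _ _) Finset.sdiff_subset
  have hTc : (F.erase x ∪ (S \ F)).card + 1 = F.card + (S \ F).card := by
    rw [Finset.card_union_of_disjoint]
    · have := Finset.card_erase_add_one hx
      omega
    · exact Finset.disjoint_of_subset_left (Finset.erase_subset _ _) Finset.disjoint_sdiff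
  have hsub := rk_submod (insert s(a, b) (inc G F)) (insert s(a, b) (inc G S \ inc G F))
  have h3 : rk (inc G F ∪ (inc G S \ inc G F)) ≤
      rk (insert s(a, b) (inc G F) ∪ insert s(a, b) (inc G S \ inc G F)) :=
    rk_mono (Finset.union_subset_union (Finset.subset_insert _ _) (Finset.subset_insert _ _))
  have h4 : 1 ≤ rk (insert s(a, b) (inc G F) ∩ insert s(a, b) (inc G S \ inc G F)) := by
    rw [← rk_singleton h.ne]
    apply rk_mono
    rw [Finset.singleton_subset_iff, Finset.mem_inter]
    exact ⟨Finset.mem_insert_self _ _, Finset.mem_insert_self _ _⟩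
  have hcard : (F ∪ {a, b}).card = F.card + 2 := by
    rw [Finset.card_union_of_disjoint, Finset.card_pair h.ne]
    rw [Finset.disjoint_right]
    intro y hy
    rw [Finset.mem_insert, Finset.mem_singleton] at hy
    rcases hy with rfl | rfl
    · exact haF
    · exact hbF
  have h5 : rk (insert s(a, b) (inc G F)) + 3 ≤ 2 * (F ∪ {a, b}).card := by
    apply rk_inside_le _ _ (by omega)
    rw [Finset.insert_subset_iff]
    refine ⟨?_, ?_⟩
    · rw [mk_mem_sym2]
      simp
    · have := inc_subset_sym2 (G := G) F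
      rwa [h.nbr_eq] at this
  have h6 := rk_insert_le (inc G S \ inc G F) s(a, b)
  have hc := Finset.card_inter_add_card_sdiff S F
  rcases h.sepS S with h7 | ⟨h7, _, h8⟩ <;> omega

/-- connectivity: a set `S` with at most two neighbours which meets `F` -/
theorem EndData.nbr_le {G : SimpleGraph V} {F : Finset V} {a b : V} (h : EndData G F a b)
    (S : Finset V) (p : V) (hp : p ∈ F) (hpS : p ∉ S) (h1 : (S ∩ F).Nonempty)
    (h2 : (nbr G S).card ≤ 2) : (nbr G (S ∪ F)).card ≤ 1 := by
  have h3 := nbr_submod G S F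
  have h4 : 3 ≤ (nbr G (S ∩ F)).card := by
    apply h.small _ _ h1
    rw [Finset.ssubset_iff_subset_ne]
    refine ⟨Finset.inter_subset_right, ?_⟩
    intro h'
    rw [← h'] at hp
    exact hpS (Finset.mem_inter.1 hp).1
  have h5 : (nbr G F).card = 2 := by rw [h.nbr_eq, Finset.card_pair h.ne]
  omega

theorem EndData.inter_ssubset {F S : Finset V} {p : V} (hp : p ∈ F) (hpS : p ∉ S) : S ∩ F ⊂ F := by
  rw [Finset.ssubset_iff_subset_ne]
  refine ⟨Finset.inter_subset_right, ?_⟩
  intro h'
  rw [← h'] at hp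
  exact hpS (Finset.mem_inter.1 hp).1

theorem exch1 {G : SimpleGraph V} {F : Finset V} {a b : V} (h : EndData G F a b)
    (Z Z' : Finset V) (hZ : Feas G Z) (p : V) (hp : p ∈ F) (hpZ : p ∉ Z') (hsub : Z' ⊆ Z ∪ F)
    (haZ : a ∉ Z')
    (hgood : ∀ S₂ ⊆ Z' \ F, b ∈ S₂ → ¬ nbr G (F ∪ S₂) ⊆ {a}) : Feas G Z' := by
  have haF : a ∉ F := h.a_notMem
  have hbF : b ∉ F := h.symm.a_notMem
  intro S hSZ hS
  have hpS : p ∉ S := fun h' => hpZ (hSZ h')
  have haS : a ∉ S := fun h' => haZ (hSZ h')
  have hS2Z : S \ F ⊆ Z := by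
    intro x hx
    rw [Finset.mem_sdiff] at hx
    rcases Finset.mem_union.1 (hsub (hSZ hx.1)) with h' | h'
    · exact h'
    · exact absurd h' hx.2
  have hS1F : S ∩ F ⊂ F := EndData.inter_ssubset hp hpS
  rcases Finset.eq_empty_or_nonempty (S \ F) with he2 | hne2
  · -- S ⊆ F
    have hSF : S ⊆ F := Finset.sdiff_eq_empty_iff_subset.1 he2
    have hSF' : S ⊂ F := by rwa [Finset.inter_eq_left.2 hSF] at hS1F
    exact ⟨h.feasA S hSF hS, h.small S hSF' hS⟩
  rcases Finset.eq_empty_or_nonempty (S ∩ F) with he1 | hne1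
  · have hS2 : S \ F = S := by
      have := Finset.sdiff_union_inter S F
      rwa [he1, Finset.union_empty] at this
    rw [hS2] at hS2Z
    exact hZ S hS2Z hS
  constructor
  · by_cases hbS : b ∈ S
    · apply h.rank1 S haS hbS p hp hpS
      · intro hne
        exact (hZ _ ((Finset.erase_subset _ _).trans hS2Z) hne).1
      · intro _
        have hb1 : ({b} : Finset V) ⊆ Z' \ F := by
          rw [Finset.singleton_subset_iff, Finset.mem_sdiff]
          exact ⟨hSZ hbS, hbF⟩
        have := hgood {b} hb1 (Finset.mem_singleton_self b)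
        rw [Finset.not_subset] at this
        obtain ⟨w, hw, hwa⟩ := this
        rw [mem_nbr] at hw
        obtain ⟨hwn, u, hu, hadj⟩ := hw
        rw [Finset.mem_union, Finset.mem_singleton] at hwn hu
        push Not at hwn
        rw [Finset.mem_singleton] at hwa
        rcases hu with hu | rfl
        · rcases h.eq_or hu hwn.1 hadj with h' | h'
          · exact absurd h' hwa
          · exact absurd h' hwn.2
        · exact ⟨w, hadj, hwn.1⟩
    · exact h.rank0 S haS hbS (h.feasA _ Finset.inter_subset_right hne1) (hZ _ hS2Z hne2).1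
  · by_contra hlt
    have h1 := h.nbr_le S p hp hpS hne1 (by omega)
    have ha1 : a ∈ nbr G (S ∪ F) := by
      have : a ∈ nbr G F := by rw [h.nbr_eq]; simp
      rw [mem_nbr] at this ⊢
      obtain ⟨_, u, hu, hadj⟩ := this
      refine ⟨?_, u, Finset.mem_union_right _ hu, hadj⟩
      rw [Finset.mem_union]
      tauto
    have hbS : b ∈ S := by
      by_contra hbS
      have hb1 : b ∈ nbr G (S ∪ F) := by
        have : b ∈ nbr G F := by rw [h.nbr_eq]; simp
        rw [mem_nbr] at this ⊢
        obtain ⟨_, u, hu, hadj⟩ := this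
        refine ⟨?_, u, Finset.mem_union_right _ hu, hadj⟩
        rw [Finset.mem_union]
        tauto
      have : 1 < (nbr G (S ∪ F)).card := Finset.one_lt_card.2 ⟨a, ha1, b, hb1, h.ne⟩
      omega
    apply hgood (S \ F) (Finset.sdiff_subset_sdiff hSZ (Finset.Subset.refl _))
      (Finset.mem_sdiff.2 ⟨hbS, hbF⟩)
    rw [Finset.union_sdiff_self_eq_union, Finset.union_comm]
    intro w hw
    rw [Finset.mem_singleton]
    by_contra hwa
    have : 1 < (nbr G (S ∪ F)).card := Finset.one_lt_card.2 ⟨a, ha1, w, hw, fun h' => hwa h'.symm⟩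
    omega

theorem exch2 {G : SimpleGraph V} {F : Finset V} {a b : V} (h : EndData G F a b)
    (Z : Finset V) (hZ : Feas G Z) (p x : V) (hp : p ∈ F) (hx : F \ Z = {x}) :
    Feas G ((Z ∪ F).erase p) := by
  have haF : a ∉ F := h.a_notMem
  have hbF : b ∉ F := h.symm.a_notMem
  have hxF : x ∈ F \ Z := by rw [hx]; exact Finset.mem_singleton_self x
  rw [Finset.mem_sdiff] at hxF
  have hFx : F.erase x ⊆ Z := by
    intro y hy
    rw [Finset.mem_erase] at hy
    by_contra hyZ
    have : y ∈ F \ Z := Finset.mem_sdiff.2 ⟨hy.2, hyZ⟩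
    rw [hx, Finset.mem_singleton] at this
    exact hy.1 this
  intro S hSZ hS
  have hpS : p ∉ S := fun h' => (Finset.mem_erase.1 (hSZ h')).1 rfl
  have hS2Z : S \ F ⊆ Z := by
    intro x hx
    rw [Finset.mem_sdiff] at hx
    rcases Finset.mem_union.1 (Finset.mem_erase.1 (hSZ hx.1)).2 with h' | h'
    · exact h'
    · exact absurd h' hx.2
  have hS1F : S ∩ F ⊂ F := EndData.inter_ssubset hp hpS
  rcases Finset.eq_empty_or_nonempty (S \ F) with he2 | hne2
  · have hSF : S ⊆ F := Finset.sdiff_eq_empty_iff_subset.1 he2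
    have hSF' : S ⊂ F := by rwa [Finset.inter_eq_left.2 hSF] at hS1F
    exact ⟨h.feasA S hSF hS, h.small S hSF' hS⟩
  rcases Finset.eq_empty_or_nonempty (S ∩ F) with he1 | hne1
  · have hS2 : S \ F = S := by
      have := Finset.sdiff_union_inter S F
      rwa [he1, Finset.union_empty] at this
    rw [hS2] at hS2Z
    exact hZ S hS2Z hS
  -- a neighbour of the attachment outside of F
  have hout : ∀ c c' : V, EndData G F c c' → c ∉ S → c' ∈ S → ∃ w, G.Adj c' w ∧ w ∉ F := by
    intro c c' hE hcS hc'S
    have hc'F : c' ∉ F := hE.symm.a_notMem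
    by_contra hno
    push Not at hno
    have hc'Z : c' ∈ Z := hS2Z (Finset.mem_sdiff.2 ⟨hc'S, hc'F⟩)
    have hTZ : insert c' (F.erase x) ⊆ Z := by
      rw [Finset.insert_subset_iff]
      exact ⟨hc'Z, hFx⟩
    have h3 := (hZ _ hTZ (Finset.insert_nonempty _ _)).2
    have h4 : nbr G (insert c' (F.erase x)) ⊆ {c, x} := by
      intro w hw
      rw [mem_nbr] at hw
      obtain ⟨hwn, u, hu, hadj⟩ := hw
      rw [Finset.mem_insert, Finset.mem_erase] at hwn hu
      push Not at hwn
      rw [Finset.mem_insert, Finset.mem_singleton]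
      by_cases hwx : w = x
      · exact Or.inr hwx
      · have hwF : w ∉ F := hwn.2 hwx
        rcases hu with rfl | hu
        · exact absurd (hno w hadj) hwF
        · rcases hE.eq_or hu.2 hwF hadj with h' | h'
          · exact Or.inl h'
          · exact absurd h' hwn.1
    have h5 := Finset.card_le_card h4
    have h6 := Finset.card_le_two (a := c) (b := x)
    omega
  constructor
  · by_cases haS : a ∈ S <;> by_cases hbS : b ∈ S
    · apply h.rank2 S haS hbS p x hp hpS hxF.1
      apply (hZ _ (Finset.union_subset hFx hS2Z) _).1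
      exact hne2.mono Finset.subset_union_right
    · apply h.symm.rank1 S hbS haS p hp hpS
      · intro hne
        exact (hZ _ ((Finset.erase_subset _ _).trans hS2Z) hne).1
      · intro _
        exact hout b a h.symm hbS haS
    · apply h.rank1 S haS hbS p hp hpS
      · intro hne
        exact (hZ _ ((Finset.erase_subset _ _).trans hS2Z) hne).1
      · intro _
        exact hout a b h haS hbS
    · exact h.rank0 S haS hbS (h.feasA _ Finset.inter_subset_right hne1) (hZ _ hS2Z hne2).1
  · by_contra hlt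
    have h1 := h.nbr_le S p hp hpS hne1 (by omega)
    have h2 := (hZ _ (Finset.union_subset hFx hS2Z) (hne2.mono Finset.subset_union_right)).2
    have h3 : nbr G (F.erase x ∪ (S \ F)) ⊆ insert x (nbr G (S ∪ F)) := by
      intro w hw
      rw [mem_nbr] at hw
      obtain ⟨hwn, u, hu, hadj⟩ := hw
      rw [Finset.mem_insert]
      by_cases hwx : w = x
      · exact Or.inl hwx
      · right
        rw [mem_nbr]
        simp only [Finset.mem_union, Finset.mem_erase, Finset.mem_sdiff] at hwn hu ⊢
        refine ⟨by tauto, u, by tauto, hadj⟩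
    have h4 := Finset.card_le_card h3
    have h5 := Finset.card_insert_le x (nbr G (S ∪ F))
    omega

theorem exchange {G : SimpleGraph V} {F : Finset V} {a b : V} (h : EndData G F a b)
    (Z : Finset V) (hZ : Feas G Z) (p : V) (hp : p ∈ F) :
    ∃ Z', Feas G Z' ∧ Z.card ≤ Z'.card ∧ p ∉ Z' ∧ Z' ⊆ Z ∪ F := by
  have haF : a ∉ F := h.a_notMem
  have hbF : b ∉ F := h.symm.a_notMem
  by_cases hpZ : p ∈ Z
  swap
  · exact ⟨Z, hZ, le_refl _, hpZ, Finset.subset_union_left⟩
  have hU : (Z ∪ F).card = Z.card + (F \ Z).card := by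
    rw [← Finset.card_union_of_disjoint Finset.disjoint_sdiff, Finset.union_sdiff_self_eq_union]
  have hpU : p ∈ Z ∪ F := Finset.mem_union_right _ hp
  have hcp : ((Z ∪ F).erase p).card + 1 = (Z ∪ F).card := Finset.card_erase_add_one hpU
  have hm0 : (F \ Z).card ≠ 0 := by
    intro h0
    rw [Finset.card_eq_zero, Finset.sdiff_eq_empty_iff_subset] at h0
    have := (hZ F h0 h.nonempty).2
    rw [h.nbr_eq, Finset.card_pair h.ne] at this
    omega
  by_cases hm1 : (F \ Z).card = 1
  · obtain ⟨x, hx⟩ := Finset.card_eq_one.1 hm1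
    refine ⟨(Z ∪ F).erase p, exch2 h Z hZ p x hp hx, by omega, by simp, Finset.erase_subset _ _⟩
  by_cases hm2 : (F \ Z).card = 2
  · by_cases hg : ∀ S₂ ⊆ Z \ F, b ∈ S₂ → a ∉ S₂ → ¬ nbr G (F ∪ S₂) ⊆ {a}
    · refine ⟨((Z ∪ F).erase p).erase a, ?_, ?_, by simp, ?_⟩
      · apply exch1 h Z _ hZ p hp (by simp)
          ((Finset.erase_subset _ _).trans (Finset.erase_subset _ _)) (by simp)
        intro S₂ hS₂ hb2
        apply hg S₂ _ hb2
        · intro ha2
          have := hS₂ ha2
          simp at this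
        · intro y hy
          have := hS₂ hy
          simp only [Finset.mem_sdiff, Finset.mem_erase, Finset.mem_union] at this ⊢
          tauto
      · have := Finset.pred_card_le_card_erase (s := (Z ∪ F).erase p) (a := a)
        omega
      · exact (Finset.erase_subset _ _).trans (Finset.erase_subset _ _)
    by_cases hg' : ∀ S₂ ⊆ Z \ F, a ∈ S₂ → b ∉ S₂ → ¬ nbr G (F ∪ S₂) ⊆ {b}
    · refine ⟨((Z ∪ F).erase p).erase b, ?_, ?_, by simp, ?_⟩
      · apply exch1 h.symm Z _ hZ p hp (by simp)
          ((Finset.erase_subset _ _).trans (Finset.erase_subset _ _)) (by simp)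
        intro S₂ hS₂ hb2
        apply hg' S₂ _ hb2
        · intro ha2
          have := hS₂ ha2
          simp at this
        · intro y hy
          have := hS₂ hy
          simp only [Finset.mem_sdiff, Finset.mem_erase, Finset.mem_union] at this ⊢
          tauto
      · have := Finset.pred_card_le_card_erase (s := (Z ∪ F).erase p) (a := b)
        omega
      · exact (Finset.erase_subset _ _).trans (Finset.erase_subset _ _)
    exfalso
    push Not at hg hg'
    obtain ⟨S₂, hS₂, hb2, ha2, hn2⟩ := hg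
    obtain ⟨S₃, hS₃, ha3, hb3, hn3⟩ := hg'
    have hTZ : (F ∩ Z) ∪ S₂ ∪ S₃ ⊆ Z := by
      apply Finset.union_subset (Finset.union_subset Finset.inter_subset_right _) _
      · exact hS₂.trans Finset.sdiff_subset
      · exact hS₃.trans Finset.sdiff_subset
    have h1 := (hZ _ hTZ ⟨b, by simp [hb2]⟩).2
    have h2 : nbr G ((F ∩ Z) ∪ S₂ ∪ S₃) ⊆ F \ Z := by
      intro w hw
      rw [mem_nbr] at hw
      obtain ⟨hwn, u, hu, hadj⟩ := hw
      simp only [Finset.mem_union, Finset.mem_inter] at hwn hu
      rw [Finset.mem_sdiff]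
      by_contra hcon
      have hwU : w ∉ F ∧ w ∉ S₂ ∧ w ∉ S₃ := by tauto
      have hu' : u ∈ F ∪ S₂ ∨ u ∈ F ∪ S₃ := by
        simp only [Finset.mem_union]
        tauto
      rcases hu' with hu' | hu'
      · have : w ∈ nbr G (F ∪ S₂) := mem_nbr.2 ⟨by
          rw [Finset.mem_union]; tauto, u, hu', hadj⟩
        have := hn2 this
        rw [Finset.mem_singleton] at this
        rw [this] at hwU
        exact hwU.2.2 ha3
      · have : w ∈ nbr G (F ∪ S₃) := mem_nbr.2 ⟨by
          rw [Finset.mem_union]; tauto, u, hu', hadj⟩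
        have := hn3 this
        rw [Finset.mem_singleton] at this
        rw [this] at hwU
        exact hwU.2.1 hb2
    have h3 := Finset.card_le_card h2
    omega
  · refine ⟨(((Z ∪ F).erase p).erase a).erase b, ?_, ?_, by simp, ?_⟩
    · apply exch1 h Z _ hZ p hp (by simp)
        ((Finset.erase_subset _ _).trans ((Finset.erase_subset _ _).trans
          (Finset.erase_subset _ _))) (by simp)
      intro S₂ hS₂ hb2
      have := hS₂ hb2
      simp at this
    · have h1 := Finset.pred_card_le_card_erase (s := ((Z ∪ F).erase p).erase a) (a := b)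
      have h2 := Finset.pred_card_le_card_erase (s := (Z ∪ F).erase p) (a := a)
      omega
    · exact (Finset.erase_subset _ _).trans ((Finset.erase_subset _ _).trans
          (Finset.erase_subset _ _))

end Pool.Agent.Helper36.Pin
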