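import Pool.Agent.Helper36.Pin.J
import Pool.Agent.Helper36.Pin.L

namespace Pool.Agent.Helper36.Pin

open Finset Module

variable {V : Type} [Fintype V] [DecidableEq V]

theorem Feas.feasA {G : SimpleGraph V} {Z : Finset V} (h : Feas G Z) : FeasA G Z :=
  fun S hS hne => (h S hS hne).1

theorem Feas.mono {G : SimpleGraph V} {Z Z' : Finset V} (h : Feas G Z) (hZ : Z' ⊆ Z) : Feas G Z' :=
  fun S hS hne => h S (hS.trans hZ) hne

theorem FeasA.mono {G : SimpleGraph V} {Z Z' : Finset V} (h : FeasA G Z) (hZ : Z' ⊆ Z) :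
    FeasA G Z' :=
  fun S hS hne => h S (hS.trans hZ) hne

/-- a nonempty set which satisfies the rank condition has at least two outer neighbours -/
theorem two_le_nbr {G : SimpleGraph V} {S : Finset V} (h : 2 * S.card + 1 ≤ rk (inc G S)) :
    2 ≤ (nbr G S).card := by
  have hdis : Disjoint S (nbr G S) := by
    rw [Finset.disjoint_left]
    intro x hx hx'
    exact (mem_nbr.1 hx').1 hx
  have hc : (S ∪ nbr G S).card = S.card + (nbr G S).card := Finset.card_union_of_disjoint hdis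
  by_cases h2 : 2 ≤ (S ∪ nbr G S).card
  · have := rk_inside_le (inc G S) _ h2 (inc_subset_sym2 S)
    omega
  · have := rk_inside_small (inc G S) (S ∪ nbr G S) (by omega) (inc_subset_sym2 S)
    omega

theorem complete_feas {G : SimpleGraph V} {P₀ : Finset V} (h : Complete G P₀) (Z : Finset V)
    (hd : Disjoint Z P₀) (hZ : FeasA G Z) : Feas G Z := by
  classical
  intro S hS hne
  refine ⟨hZ S hS hne, ?_⟩
  by_contra hlt
  push Not at hlt
  -- a minimal set
  let fam : Finset (Finset V) := Z.powerset.filter (fun S => S.Nonempty ∧ (nbr G S).card < 3)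
  have hfam : fam.Nonempty := ⟨S, by simp [fam, hS, hne, hlt]⟩
  obtain ⟨S', hS', hmin⟩ := Finset.exists_min_image fam Finset.card hfam
  simp only [fam, Finset.mem_filter, Finset.mem_powerset] at hS' hmin
  obtain ⟨hS'Z, hS'ne, hS'lt⟩ := hS'
  have h2 := two_le_nbr (hZ S' hS'Z hS'ne)
  obtain ⟨a, b, hab, hnb⟩ := Finset.card_eq_two.1 (show (nbr G S').card = 2 by omega)
  have hE : EndData G S' a b := by
    refine ⟨hab, hnb, hS'ne, hZ.mono hS'Z, ?_⟩
    intro S'' hS'' hne''
    by_contra hlt''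
    push Not at hlt''
    have := hmin S'' ⟨hS''.subset.trans hS'Z, hne'', hlt''⟩
    have := Finset.card_lt_card hS''
    omega
  exact h.2 S' a b ((isEnd_iff G S' a b).2 hE) (Finset.disjoint_of_subset_left hS'Z hd)

theorem forced_exchange {G : SimpleGraph V} {P₀ : Finset V} (h : Forced G P₀) (Z : Finset V)
    (hZ : Feas G Z) : ∃ Z', Feas G Z' ∧ Z.card ≤ Z'.card ∧ Disjoint Z' P₀ := by
  induction h with
  | nil => exact ⟨Z, hZ, le_rfl, Finset.disjoint_empty_right _⟩
  | @cons P₀ F a b p hF hE hd hp ih =>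
    obtain ⟨Z', hZ', hc, hdis⟩ := ih
    obtain ⟨Z'', hZ'', hc', hpZ, hsub⟩ := exchange ((isEnd_iff G F a b).1 hE) Z' hZ' p hp
    refine ⟨Z'', hZ'', hc.trans hc', ?_⟩
    rw [Finset.disjoint_insert_right]
    exact ⟨hpZ, Finset.disjoint_of_subset_left hsub (Finset.disjoint_union_left.2 ⟨hdis, hd⟩)⟩

theorem exists_complete (G : SimpleGraph V) : ∃ P₀, Complete G P₀ := by
  classical
  let fam : Finset (Finset V) := Finset.univ.filter (fun P => Forced G P)
  have hfam : fam.Nonempty := ⟨∅, by simp [fam, Forced.nil]⟩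
  obtain ⟨P₀, hP₀, hmax⟩ := Finset.exists_max_image fam Finset.card hfam
  simp only [fam, Finset.mem_filter, Finset.mem_univ, true_and] at hP₀ hmax
  refine ⟨P₀, hP₀, ?_⟩
  intro F a b hE hd
  have hne : F.Nonempty := by
    rw [Finset.nonempty_iff_ne_empty]
    rintro rfl
    have : a ∈ nbr G ∅ := by rw [hE.nbr_eq]; simp
    obtain ⟨_, u, hu, _⟩ := mem_nbr.1 this
    simp at hu
  obtain ⟨p, hp⟩ := hne
  have h1 := hmax _ (Forced.cons hP₀ hE hd hp)
  have h2 : p ∉ P₀ := Finset.disjoint_left.1 hd hp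
  rw [Finset.card_insert_of_notMem h2] at h1
  omega

theorem Pins.three_le {G : SimpleGraph V} (hV : 4 ≤ Fintype.card V) {P : Finset V}
    (h : Pins G P) : 3 ≤ P.card := by
  rcases h with rfl | h
  · rw [Finset.card_univ]; omega
  · exact h.1

theorem pin_eq_three (G : SimpleGraph V) (hV : 4 ≤ Fintype.card V)
    (h : ∃ P : Finset V, P.card = 3 ∧ Pins G P) : pin G = 3 := by
  apply le_antisymm
  · exact Nat.sInf_le h
  · apply le_csInf ⟨3, h⟩
    rintro k ⟨P, rfl, hP⟩
    exact hP.three_le hV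

theorem pin_comb (G : SimpleGraph V) (hV : 4 ≤ Fintype.card V) (P₀ : Finset V)
    (hP₀ : Complete G P₀) (h3 : ¬ ∃ P : Finset V, P.card = 3 ∧ Pins G P) (ν : ℕ)
    (hν : IsGreatest {k | ∃ Z : Finset V, Disjoint Z P₀ ∧ FeasA G Z ∧ Z.card = k} ν) :
    pin G = max 4 (Fintype.card V - ν) := by
  apply le_antisymm
  · obtain ⟨⟨Z, hZd, hZA, hZc⟩, _⟩ := hν
    have hZ := complete_feas hP₀ Z hZd hZA
    obtain ⟨Z₁, hZ₁, hc₁⟩ := Finset.exists_subset_card_eq
      (show min ν (Fintype.card V - 4) ≤ Z.card by omega)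
    have hcc : Z₁ᶜ.card = max 4 (Fintype.card V - ν) := by
      rw [Finset.card_compl, hc₁]
      omega
    refine Nat.sInf_le ⟨Z₁ᶜ, hcc, ?_⟩
    rw [pins_iff G _ (by rw [hcc]; exact le_max_left _ _), compl_compl]
    exact hZ.mono hZ₁
  · have hne : {k | ∃ P : Finset V, P.card = k ∧ Pins G P}.Nonempty :=
      ⟨_, Finset.univ, rfl, Or.inl rfl⟩
    apply le_csInf hne
    rintro k ⟨P, rfl, hP⟩
    have h3' := hP.three_le hV
    have h4 : 4 ≤ P.card := by
      by_contra hlt
      exact h3 ⟨P, by omega, hP⟩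
    rw [pins_iff G P h4] at hP
    obtain ⟨Z', hZ', hc, hdis⟩ := forced_exchange hP₀.1 _ hP
    have := hν.2 ⟨Z', hdis, hZ'.feasA, rfl⟩
    rw [Finset.card_compl] at hc
    omega

end Pool.Agent.Helper36.Pin
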