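import Pool.Agent.Helper36.Pin.M
import Pool.Agent.Helper37.Pin.C3Final
import Pool.Agent.Helper37.Pin.ModN1
import Pool.Agent.Helper22.Pin.C2
import Pool.Agent.Helper23.Pin.N2
import Pool.Agent.Helper44.Pin.Count

/-!
# The rank formula for the pinning number (randomised form)
-/

namespace Pool.Agent.Helper36.Pin

open Finset Module

variable {V : Type} [Fintype V] [DecidableEq V]

theorem T_lower (G : SimpleGraph V) (U Z : Finset V) (hZU : Z ⊆ U) (hZ : FeasA G Z) :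
    ∃ ω : Var V → ℚ, 2 * Z.card ≤ (T G U ω).rank :=
  T_lower_of exists_generic_rk G U Z hZU hZ

/-- the optimum exists -/
theorem exists_optimum (G : SimpleGraph V) (P₀ : Finset V) :
    ∃ ν, IsGreatest {k | ∃ Z : Finset V, Disjoint Z P₀ ∧ FeasA G Z ∧ Z.card = k} ν := by
  classical
  have hne : (Finset.univ.filter (fun Z : Finset V => Disjoint Z P₀ ∧ FeasA G Z)).Nonempty := by
    refine ⟨∅, ?_⟩
    rw [Finset.mem_filter]
    refine ⟨mem_univ _, Finset.disjoint_empty_left _, ?_⟩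
    intro S hS hn
    exact absurd (Finset.subset_empty.1 hS) hn.ne_empty
  obtain ⟨Z, hZ, hmax⟩ := Finset.exists_max_image _ Finset.card hne
  rw [Finset.mem_filter] at hZ
  refine ⟨Z.card, ⟨Z, hZ.2.1, hZ.2.2, rfl⟩, ?_⟩
  rintro k ⟨Z', h1, h2, rfl⟩
  exact hmax Z' (Finset.mem_filter.2 ⟨mem_univ _, h1, h2⟩)

open Classical in
theorem rank_formula (G : SimpleGraph V) (hV : 4 ≤ Fintype.card V)
    (h3 : ¬ ∃ P : Finset V, P.card = 3 ∧ Pins G P) (P₀ : Finset V) (hP₀ : Complete G P₀) :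
    (∀ ω : Var V → ℚ, pin G ≤ max 4 (Fintype.card V - (T G P₀ᶜ ω).rank / 2)) ∧
      ∀ N : ℕ,
        (Finset.univ.filter (fun ω : Var V → Fin N =>
          pin G ≠ max 4 (Fintype.card V -
            (T G P₀ᶜ (fun i => ((ω i : ℕ) : ℚ))).rank / 2))).card * N ≤
        20 * Fintype.card V * N ^ Fintype.card (Var V) := by
  obtain ⟨ν, hν⟩ := exists_optimum G P₀
  have hpin := pin_comb G hV P₀ hP₀ h3 ν hν
  have hup : ∀ ω : Var V → ℚ, (T G P₀ᶜ ω).rank ≤ 2 * ν := by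
    intro ω
    obtain ⟨Z, hZU, hZ, hr⟩ := T_upper G P₀ᶜ ω
    have h1 : Disjoint Z P₀ := by
      rw [Finset.disjoint_left]
      intro x hx hx'
      exact (Finset.mem_compl.1 (hZU hx)) hx'
    have := hν.2 ⟨Z, h1, hZ, rfl⟩
    omega
  refine ⟨?_, ?_⟩
  · intro ω
    rw [hpin]
    have := hup ω
    apply max_le_max le_rfl
    omega
  · intro N
    obtain ⟨⟨Z, hZd, hZ, hZc⟩, _⟩ := hν
    have hZU : Z ⊆ P₀ᶜ := by
      intro x hx
      rw [Finset.mem_compl]
      exact Finset.disjoint_left.1 hZd hx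
    obtain ⟨ω₀, hω₀⟩ := T_lower G P₀ᶜ Z hZU hZ
    rw [hZc] at hω₀
    have hcount := T_count G P₀ᶜ (2 * ν) N ⟨ω₀, hω₀⟩
    refine le_trans (Nat.mul_le_mul_right N (Finset.card_le_card ?_)) hcount
    intro ω hω
    rw [Finset.mem_filter] at hω ⊢
    refine ⟨mem_univ _, ?_⟩
    by_contra hge
    apply hω.2
    have h1 := hup (fun i => ((ω i : ℕ) : ℚ))
    have h2 : (T G P₀ᶜ (fun i => ((ω i : ℕ) : ℚ))).rank / 2 = ν := by omega
    rw [hpin, h2]

end Pool.Agent.Helper36.Pin
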